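import Mathlib

/-!
# The Hermite-Hadamard-Howe map and the rectangular isotypic components

`V = ℂ^m`, and the tensors in `V^{⊗ι}` are given by their coordinates.
-/

set_option autoImplicit false

namespace Pool.Agent.T6.H18.HH

open Finset

/-- The tensors in `V^{⊗ι}`, `V = ℂ^m`, given by their coordinates. -/
abbrev Tensor (m : ℕ) (ι : Type) : Type := (ι → Fin m) → ℂ

/-- The action of a matrix `g` on `V^{⊗ι}`: the tensor power of `g`. -/
noncomputable def act {m : ℕ} {ι : Type} [Fintype ι] [DecidableEq ι]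
    (g : Matrix (Fin m) (Fin m) ℂ) (t : Tensor m ι) : Tensor m ι :=
  fun a => ∑ b : ι → Fin m, (∏ x, g (a x) (b x)) * t b

/-- For a tensor with `k` blocks of `l` factors: symmetrization inside each block. -/
noncomputable def symIn {m k l : ℕ} (t : Tensor m (Fin k × Fin l)) : Tensor m (Fin k × Fin l) :=
  fun a => ((l.factorial : ℂ) ^ k)⁻¹ *
    ∑ τ : Fin k → Equiv.Perm (Fin l), t (fun x => a (x.1, τ x.1 x.2))

/-- For a tensor with `k` blocks of `l` factors: symmetrization over the blocks. -/
noncomputable def symOut {m k l : ℕ} (t : Tensor m (Fin k × Fin l)) : Tensor m (Fin k × Fin l) :=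
  fun a => (k.factorial : ℂ)⁻¹ * ∑ σ : Equiv.Perm (Fin k), t (fun x => a (σ x.1, x.2))

/-- Regrouping: `k` blocks of `l` factors become `l` blocks of `k` factors; the `j`-th new block
collects the `j`-th factors of the old blocks. -/
def regroup {m k l : ℕ} (t : Tensor m (Fin k × Fin l)) : Tensor m (Fin l × Fin k) :=
  fun a => t (fun x => a (x.2, x.1))

/-- The Hermite-Hadamard-Howe map `h_{d,n} : S^d(S^n V) → S^n(S^d V)` (it is given by a formula
which makes sense for all tensors in `V^{⊗nd}`): regroup, symmetrize inside the new blocks, and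
symmetrize over the new blocks. -/
noncomputable def hhh {m d n : ℕ} (t : Tensor m (Fin d × Fin n)) : Tensor m (Fin n × Fin d) :=
  symOut (symIn (regroup t))

/-- The tensor `t` with `d` blocks of `n` factors is invariant under the permutations inside the
blocks and under the permutations of the blocks. -/
def BlockSymmetric {m d n : ℕ} (t : Tensor m (Fin d × Fin n)) : Prop :=
  (∀ (τ : Fin d → Equiv.Perm (Fin n)) a, t (fun x => a (x.1, τ x.1 x.2)) = t a) ∧
    ∀ (σ : Equiv.Perm (Fin d)) a, t (fun x => a (σ x.1, x.2)) = t a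

theorem BlockSymmetric.add {m d n : ℕ} {s t : Tensor m (Fin d × Fin n)} (hs : BlockSymmetric s)
    (ht : BlockSymmetric t) : BlockSymmetric (s + t) :=
  ⟨fun τ a => by simp only [Pi.add_apply, hs.1, ht.1], fun σ a => by
    simp only [Pi.add_apply, hs.2, ht.2]⟩

theorem BlockSymmetric.zero {m d n : ℕ} : BlockSymmetric (0 : Tensor m (Fin d × Fin n)) :=
  ⟨fun _ _ => rfl, fun _ _ => rfl⟩

theorem BlockSymmetric.smul {m d n : ℕ} (c : ℂ) {t : Tensor m (Fin d × Fin n)}
    (ht : BlockSymmetric t) : BlockSymmetric (c • t) :=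
  ⟨fun τ a => by simp only [Pi.smul_apply, ht.1], fun σ a => by simp only [Pi.smul_apply, ht.2]⟩

/-- The subspace `S^d(S^n V)` of `V^{⊗nd}`: the tensors with `d` blocks of `n` factors that are
invariant under the permutations inside the blocks and under the permutations of the blocks. -/
def SdSn (m d n : ℕ) : Submodule ℂ (Tensor m (Fin d × Fin n)) where
  carrier := {t | BlockSymmetric t}
  add_mem' := BlockSymmetric.add
  zero_mem' := BlockSymmetric.zero
  smul_mem' := BlockSymmetric.smul

/-- The tensor `(v_1 ∧ ... ∧ v_n)^{⊗d}` in `(Λ^n V)^{⊗d} ⊂ V^{⊗nd}`. -/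
noncomputable def wedgePow {m n : ℕ} (d : ℕ) (v : Fin n → Fin m → ℂ) : Tensor m (Fin d × Fin n) :=
  fun a => ∏ i : Fin d, Matrix.det (Matrix.of fun j k => v k (a (i, j)))

/-- The irreducible `GL(V)`-module `S_{(d^n)} V`: the span of all `(v_1 ∧ ... ∧ v_n)^{⊗d}` (the
`d`-th Cartan power of `Λ^n V`, of highest weight `(d^n)`). -/
noncomputable def rect (m d n : ℕ) : Submodule ℂ (Tensor m (Fin d × Fin n)) :=
  Submodule.span ℂ (Set.range (wedgePow d))

/-- The restriction of `f` to the submodule `S_{(d^n)} V` of `V^{⊗nd}` is a homomorphism of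
`GL(V)`-modules: it is linear and commutes with the action of `GL(V)`. (The values of `f` outside
`S_{(d^n)} V` play no role.) -/
def IsHom {m d n : ℕ} {ι : Type} [Fintype ι] [DecidableEq ι]
    (f : Tensor m (Fin d × Fin n) → Tensor m ι) : Prop :=
  (∀ w ∈ rect m d n, ∀ w' ∈ rect m d n, f (w + w') = f w + f w') ∧
    (∀ c : ℂ, ∀ w ∈ rect m d n, f (c • w) = c • f w) ∧
    ∀ g : GL (Fin m) ℂ, ∀ w ∈ rect m d n, f (act g.1 w) = act g.1 (f w)

/-- The `S_{(d^n)} V`-isotypic component of `S^d(S^n V)`: the sum of the images of all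
`GL(V)`-module homomorphisms from `S_{(d^n)} V` to `S^d(S^n V)`. -/
noncomputable def isotypic (m d n : ℕ) : Submodule ℂ (Tensor m (Fin d × Fin n)) :=
  Submodule.span ℂ {t | ∃ f : Tensor m (Fin d × Fin n) → Tensor m (Fin d × Fin n),
    IsHom f ∧ (∀ w ∈ rect m d n, f w ∈ SdSn m d n) ∧ ∃ w ∈ rect m d n, f w = t}

end Pool.Agent.T6.H18.HH
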