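import Mathlib
import Pool.Agent.T6.H18.HH.Defs

/-!
# Symmetrization operators
-/

set_option autoImplicit false

namespace Pool.Agent.T6.H18.HH

open Finset

section mv

variable {m : ℕ} {ι κ : Type} [Fintype ι] [DecidableEq ι] [Fintype κ] [DecidableEq κ]

/-- permute the positions -/
def mv (e : ι ≃ κ) (t : Tensor m ι) : Tensor m κ := fun a => t (fun x => a (e x))

theorem act_mv (g : Matrix (Fin m) (Fin m) ℂ) (e : ι ≃ κ) (t : Tensor m ι) :
    act g (mv e t) = mv e (act g t) := by
  ext a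
  simp only [act, mv]
  refine Fintype.sum_equiv (Equiv.arrowCongr e (Equiv.refl _)).symm _ _ ?_
  intro b
  have h : ∀ x, ((Equiv.arrowCongr e (Equiv.refl (Fin m))).symm b) x = b (e x) := fun x => rfl
  simp only [h]
  congr 1
  exact (Fintype.prod_equiv e _ _ (fun x => rfl)).symm

theorem act_smul (g : Matrix (Fin m) (Fin m) ℂ) (c : ℂ) (t : Tensor m ι) :
    act g (c • t) = c • act g t := by
  ext a
  simp only [act, Pi.smul_apply, smul_eq_mul, mul_sum]
  exact sum_congr rfl fun b _ => by ring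

theorem act_add (g : Matrix (Fin m) (Fin m) ℂ) (s t : Tensor m ι) :
    act g (s + t) = act g s + act g t := by
  ext a
  simp only [act, Pi.add_apply, mul_add, sum_add_distrib]

theorem act_sum {J : Type} (g : Matrix (Fin m) (Fin m) ℂ) (s : Finset J) (t : J → Tensor m ι) :
    act g (∑ j ∈ s, t j) = ∑ j ∈ s, act g (t j) := by
  classical
  induction s using Finset.induction_on with
  | empty =>
    ext a
    simp [act]
  | insert j s hj ih => rw [sum_insert hj, sum_insert hj, act_add, ih]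

/-- the hermitian inner product -/
noncomputable def ip (s t : Tensor m ι) : ℂ := ∑ a, star (s a) * t a

theorem ip_mv (e : ι ≃ κ) (s : Tensor m ι) (t : Tensor m κ) : ip (mv e s) t = ip s (mv e.symm t) := by
  simp only [ip, mv]
  refine Fintype.sum_equiv (Equiv.arrowCongr e (Equiv.refl _)).symm _ _ ?_
  intro b
  have h : ∀ x, ((Equiv.arrowCongr e (Equiv.refl (Fin m))).symm b) x = b (e x) := fun x => rfl
  simp only [h, Equiv.apply_symm_apply]
  rfl

theorem ip_sum_left {J : Type} (s : Finset J) (u : J → Tensor m ι) (t : Tensor m ι) :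
    ip (∑ j ∈ s, u j) t = ∑ j ∈ s, ip (u j) t := by
  simp only [ip, Finset.sum_apply, star_sum, sum_mul]
  exact sum_comm

theorem ip_sum_right {J : Type} (s : Finset J) (u : J → Tensor m ι) (t : Tensor m ι) :
    ip t (∑ j ∈ s, u j) = ∑ j ∈ s, ip t (u j) := by
  simp only [ip, Finset.sum_apply, mul_sum]
  exact sum_comm

theorem ip_smul_left (c : ℂ) (s t : Tensor m ι) : ip (c • s) t = star c * ip s t := by
  simp only [ip, Pi.smul_apply, smul_eq_mul, star_mul', mul_sum]
  exact sum_congr rfl fun a _ => by ring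

theorem ip_smul_right (c : ℂ) (s t : Tensor m ι) : ip s (c • t) = c * ip s t := by
  simp only [ip, Pi.smul_apply, smul_eq_mul, mul_sum]
  exact sum_congr rfl fun a _ => by ring

theorem ip_self_ne_zero {s : Tensor m ι} (h : s ≠ 0) : ip s s ≠ 0 := by
  intro h0
  apply h
  have h1 : ∀ a, star (s a) * s a = ((Complex.normSq (s a) : ℝ) : ℂ) := fun a => by
    rw [Complex.star_def, Complex.normSq_eq_conj_mul_self]
  simp only [ip, h1] at h0
  rw [← Complex.ofReal_sum, Complex.ofReal_eq_zero,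
    sum_eq_zero_iff_of_nonneg (fun a _ => Complex.normSq_nonneg _)] at h0
  ext a
  exact Complex.normSq_eq_zero.1 (h0 a (mem_univ a))

end mv

section sym

variable {m k l : ℕ}

/-- permutations inside the blocks -/
def eIn (τ : Fin k → Equiv.Perm (Fin l)) : Fin k × Fin l ≃ Fin k × Fin l where
  toFun x := (x.1, τ x.1 x.2)
  invFun x := (x.1, (τ x.1).symm x.2)
  left_inv x := by simp
  right_inv x := by simp

/-- permutations of the blocks -/
def eOut (σ : Equiv.Perm (Fin k)) : Fin k × Fin l ≃ Fin k × Fin l where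
  toFun x := (σ x.1, x.2)
  invFun x := (σ.symm x.1, x.2)
  left_inv x := by simp
  right_inv x := by simp

theorem symIn_eq (t : Tensor m (Fin k × Fin l)) :
    symIn t = ((l.factorial : ℂ) ^ k)⁻¹ • ∑ τ : Fin k → Equiv.Perm (Fin l), mv (eIn τ) t := by
  ext a
  simp only [symIn, Pi.smul_apply, Finset.sum_apply, smul_eq_mul]
  rfl

theorem symOut_eq (t : Tensor m (Fin k × Fin l)) :
    symOut t = ((k.factorial : ℂ))⁻¹ • ∑ σ : Equiv.Perm (Fin k), mv (eOut σ) t := by
  ext a
  simp only [symOut, Pi.smul_apply, Finset.sum_apply, smul_eq_mul]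
  rfl

theorem regroup_eq (t : Tensor m (Fin k × Fin l)) :
    regroup t = mv (Equiv.prodComm (Fin k) (Fin l)) t := rfl

theorem mv_smul {ι κ : Type} (e : ι ≃ κ) (c : ℂ) (t : Tensor m ι) : mv e (c • t) = c • mv e t := rfl

theorem mv_sum {ι κ J : Type} (e : ι ≃ κ) (s : Finset J) (t : J → Tensor m ι) :
    mv e (∑ j ∈ s, t j) = ∑ j ∈ s, mv e (t j) := by
  ext a
  simp only [mv, Finset.sum_apply]

theorem mv_mv {ι κ μ : Type} (e : ι ≃ κ) (f : κ ≃ μ) (t : Tensor m ι) :
    mv f (mv e t) = mv (e.trans f) t := rfl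

theorem act_symIn (g : Matrix (Fin m) (Fin m) ℂ) (t : Tensor m (Fin k × Fin l)) :
    act g (symIn t) = symIn (act g t) := by
  rw [symIn_eq, symIn_eq, act_smul, act_sum]
  simp only [act_mv]

theorem act_symOut (g : Matrix (Fin m) (Fin m) ℂ) (t : Tensor m (Fin k × Fin l)) :
    act g (symOut t) = symOut (act g t) := by
  rw [symOut_eq, symOut_eq, act_smul, act_sum]
  simp only [act_mv]

theorem act_regroup (g : Matrix (Fin m) (Fin m) ℂ) (t : Tensor m (Fin k × Fin l)) :
    act g (regroup t) = regroup (act g t) := by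
  rw [regroup_eq, regroup_eq, act_mv]

theorem act_hhh (g : Matrix (Fin m) (Fin m) ℂ) (t : Tensor m (Fin k × Fin l)) :
    act g (hhh t) = hhh (act g t) := by
  rw [hhh, hhh, act_symOut, act_symIn, act_regroup]

/-- invariance of the symmetrized tensor -/
theorem symIn_inv (t : Tensor m (Fin k × Fin l)) (τ : Fin k → Equiv.Perm (Fin l))
    (a : Fin k × Fin l → Fin m) : symIn t (fun x => a (x.1, τ x.1 x.2)) = symIn t a := by
  simp only [symIn]
  congr 1
  refine Fintype.sum_equiv (Equiv.piCongrRight fun i => Equiv.mulLeft (τ i)) _ _ ?_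
  intro ρ
  rfl

theorem symOut_inv (t : Tensor m (Fin k × Fin l)) (σ : Equiv.Perm (Fin k))
    (a : Fin k × Fin l → Fin m) : symOut t (fun x => a (σ x.1, x.2)) = symOut t a := by
  simp only [symOut]
  congr 1
  refine Fintype.sum_equiv (Equiv.mulLeft σ) _ _ ?_
  intro ρ
  rfl

theorem fact_ne (k : ℕ) : (k.factorial : ℂ) ≠ 0 := by
  exact_mod_cast k.factorial_ne_zero

theorem symIn_of_inv (t : Tensor m (Fin k × Fin l))
    (h : ∀ (τ : Fin k → Equiv.Perm (Fin l)) a, t (fun x => a (x.1, τ x.1 x.2)) = t a) :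
    symIn t = t := by
  ext a
  simp only [symIn, h]
  rw [sum_const, card_univ, Fintype.card_fun, Fintype.card_perm, Fintype.card_fin,
    Fintype.card_fin, nsmul_eq_mul, ← mul_assoc]
  push_cast
  rw [inv_mul_cancel₀ (pow_ne_zero _ (fact_ne l)), one_mul]

theorem symOut_of_inv (t : Tensor m (Fin k × Fin l))
    (h : ∀ (σ : Equiv.Perm (Fin k)) a, t (fun x => a (σ x.1, x.2)) = t a) :
    symOut t = t := by
  ext a
  simp only [symOut, h]
  rw [sum_const, card_univ, Fintype.card_perm, Fintype.card_fin, nsmul_eq_mul, ← mul_assoc,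
    inv_mul_cancel₀ (fact_ne k), one_mul]

/-- the two symmetrizations commute -/
theorem sym_comm (t : Tensor m (Fin k × Fin l)) : symIn (symOut t) = symOut (symIn t) := by
  ext a
  simp only [symIn, symOut, mul_sum]
  rw [sum_comm]
  refine sum_congr rfl fun σ _ => ?_
  refine Fintype.sum_equiv (Equiv.arrowCongr σ.symm (Equiv.refl _)) _ _ ?_
  intro τ
  have h : ∀ i, ((Equiv.arrowCongr σ.symm (Equiv.refl (Equiv.Perm (Fin l)))) τ) i = τ (σ i) :=
    fun i => rfl
  simp only [h]
  ring

/-- full symmetrization: the projection to `S^k(S^l V)` -/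
noncomputable def sym (t : Tensor m (Fin k × Fin l)) : Tensor m (Fin k × Fin l) := symOut (symIn t)

theorem sym_mem (t : Tensor m (Fin k × Fin l)) : sym t ∈ SdSn m k l :=
  ⟨fun τ a => by rw [sym, ← sym_comm, symIn_inv], fun σ a => by rw [sym, symOut_inv]⟩

theorem sym_of_mem {t : Tensor m (Fin k × Fin l)} (h : t ∈ SdSn m k l) : sym t = t := by
  rw [sym, symIn_of_inv t h.1, symOut_of_inv t h.2]

theorem sym_sym (t : Tensor m (Fin k × Fin l)) : sym (sym t) = sym t := sym_of_mem (sym_mem t)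

theorem hhh_eq (t : Tensor m (Fin k × Fin l)) : hhh t = sym (regroup t) := rfl

theorem hhh_mem (t : Tensor m (Fin k × Fin l)) : hhh t ∈ SdSn m l k := sym_mem _

theorem ip_symIn (s t : Tensor m (Fin k × Fin l)) : ip (symIn s) t = ip s (symIn t) := by
  rw [symIn_eq, symIn_eq, ip_smul_left, ip_smul_right, ip_sum_left, ip_sum_right]
  congr 1
  · simp
  · refine Fintype.sum_equiv (Equiv.piCongrRight fun _ => Equiv.inv _) _ _ ?_
    intro τ
    rw [ip_mv]
    rfl

theorem ip_symOut (s t : Tensor m (Fin k × Fin l)) : ip (symOut s) t = ip s (symOut t) := by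
  rw [symOut_eq, symOut_eq, ip_smul_left, ip_smul_right, ip_sum_left, ip_sum_right]
  congr 1
  · simp
  · refine Fintype.sum_equiv (Equiv.inv _) _ _ ?_
    intro τ
    rw [ip_mv]
    rfl

theorem ip_sym (s t : Tensor m (Fin k × Fin l)) : ip (sym s) t = ip s (sym t) := by
  rw [sym, ip_symOut, ip_symIn, sym, sym_comm]

theorem ip_regroup (s : Tensor m (Fin k × Fin l)) (t : Tensor m (Fin l × Fin k)) :
    ip (regroup s) t = ip s (regroup t) := by
  rw [regroup_eq, ip_mv]
  rfl

theorem regroup_regroup (s : Tensor m (Fin k × Fin l)) : regroup (regroup s) = s := rfl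

/-- if `h h w ≠ 0` then `h h h w ≠ 0` -/
theorem hhh3_ne {w : Tensor m (Fin k × Fin l)} (h : hhh (hhh w) ≠ 0) : hhh (hhh (hhh w)) ≠ 0 := by
  intro h0
  have h1 : ip (hhh (hhh (hhh w))) (regroup w) = ip (hhh (hhh w)) (hhh (hhh w)) := by
    rw [hhh_eq (hhh (hhh w)), ip_sym, ip_regroup]
    rw [← hhh_eq w]
    conv_lhs => rw [hhh_eq (hhh w), ← sym_sym (regroup (hhh w)), ip_sym]
    rfl
  rw [h0] at h1
  have h2 : ip (0 : Tensor m (Fin l × Fin k)) (regroup w) = 0 := by
    simp [ip]
  rw [h2] at h1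
  exact ip_self_ne_zero h h1.symm

end sym

end Pool.Agent.T6.H18.HH
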