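import Mathlib
import Pool.Agent.T6.H18.HH.Ops

/-!
# Semi-invariant tensors
-/

set_option autoImplicit false

namespace Pool.Agent.T6.H18.HH

open Finset

/-- functions with the same fibre cardinalities differ by a permutation -/
theorem exists_perm {α β : Type} [Fintype α] [DecidableEq α] [DecidableEq β] (f g : α → β)
    (h : ∀ b, Fintype.card {a // f a = b} = Fintype.card {a // g a = b}) :
    ∃ σ : Equiv.Perm α, ∀ a, f a = g (σ a) := by
  classical
  choose e he using fun b => (⟨(Fintype.equivOfCardEq (h b)), trivial⟩ :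
    ∃ _e : {a // f a = b} ≃ {a // g a = b}, True)
  refine ⟨((Equiv.sigmaFiberEquiv f).symm.trans (Equiv.sigmaCongrRight e)).trans
    (Equiv.sigmaFiberEquiv g), fun a => ?_⟩
  have : g ((((Equiv.sigmaFiberEquiv f).symm.trans (Equiv.sigmaCongrRight e)).trans
    (Equiv.sigmaFiberEquiv g)) a) = f a := by
    simp only [Equiv.trans_apply]
    exact (e (f a) ⟨a, rfl⟩).2
  exact this.symm

open MvPolynomial in
/-- a tensor with `n` blocks of `d` factors, symmetric inside the blocks, is determined by its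
values at the tensors `v_1^d ... v_n^d` -/
theorem eq_zero_of_eval {n d : ℕ} (ψ : Tensor n (Fin n × Fin d))
    (h1 : ∀ (τ : Fin n → Equiv.Perm (Fin d)) a, ψ (fun x => a (x.1, τ x.1 x.2)) = ψ a)
    (h2 : ∀ Y : Matrix (Fin n) (Fin n) ℂ, act Y ψ (fun x => x.1) = 0) : ψ = 0 := by
  classical
  -- the monomial of an index
  let μ : (Fin n × Fin d → Fin n) → (Fin n × Fin n →₀ ℕ) := fun b =>
    ∑ x : Fin n × Fin d, Finsupp.single (x.1, b x) 1
  have hμ : ∀ b j k, μ b (j, k) = Fintype.card {i : Fin d // b (j, i) = k} := by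
    intro b j k
    simp only [μ, Finsupp.finsetSum_apply, Finsupp.single_apply, Prod.mk.injEq]
    rw [Fintype.sum_prod_type, sum_eq_single j]
    · simp only [true_and]
      rw [Fintype.card_subtype, card_filter]
    · intro j' _ hj'
      exact sum_eq_zero fun i _ => by simp [hj']
    · intro hj
      exact absurd (mem_univ j) hj
  let G : MvPolynomial (Fin n × Fin n) ℂ := ∑ b, monomial (μ b) (ψ b)
  have hG : G = 0 := by
    apply MvPolynomial.funext
    intro Y
    have h3 := h2 (Matrix.of fun j k => Y (j, k))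
    rw [map_zero, ← h3]
    simp only [G, map_sum, act, eval_monomial]
    refine sum_congr rfl fun b _ => ?_
    rw [mul_comm]
    congr 1
    simp only [μ]
    rw [← Finsupp.prod_finsetSum_index (by simp) (by intro a b c; exact pow_add _ _ _)]
    refine prod_congr rfl fun x _ => ?_
    rw [Finsupp.prod_single_index (by simp), pow_one]
    rfl
  ext b0
  have h4 := congrArg (coeff (μ b0)) hG
  simp only [G, coeff_sum, coeff_monomial, coeff_zero] at h4
  have h5 : ∀ b, μ b = μ b0 → ψ b = ψ b0 := by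
    intro b hb
    have h6 : ∀ j : Fin n, ∃ σ : Equiv.Perm (Fin d), ∀ i, b (j, i) = b0 (j, σ i) := by
      intro j
      refine exists_perm (fun i => b (j, i)) (fun i => b0 (j, i)) fun k => ?_
      rw [← hμ b j k, ← hμ b0 j k, hb]
    choose τ hτ using h6
    rw [← h1 τ b0]
    congr 1
    ext x
    rw [← hτ]
  have h7 : ∑ b, (if μ b = μ b0 then ψ b else 0) = ∑ b, (if μ b = μ b0 then ψ b0 else 0) :=
    sum_congr rfl fun b _ => by
      by_cases hb : μ b = μ b0
      · rw [if_pos hb, if_pos hb, h5 b hb]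
      · rw [if_neg hb, if_neg hb]
  rw [h7, ← sum_filter, sum_const, nsmul_eq_mul, mul_eq_zero] at h4
  rcases h4 with h4 | h4
  · exfalso
    rw [Nat.cast_eq_zero, card_eq_zero] at h4
    have : b0 ∈ (univ.filter fun b => μ b = μ b0) := by simp
    rw [h4] at this
    exact absurd this (notMem_empty _)
  · exact h4

/-- `∑_c ∏_j g(a_j, c_j) det (v_k (c_j)) = det ((g v_k)(a_j))` -/
theorem det_expand {m n : ℕ} (g : Matrix (Fin m) (Fin m) ℂ) (v : Fin n → Fin m → ℂ)
    (a : Fin n → Fin m) :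
    ∑ c : Fin n → Fin m, (∏ j, g (a j) (c j)) * Matrix.det (Matrix.of fun j k => v k (c j)) =
      Matrix.det (Matrix.of fun j k => (g.mulVec (v k)) (a j)) := by
  classical
  have h1 : (Matrix.of fun j k => (g.mulVec (v k)) (a j) : Matrix (Fin n) (Fin n) ℂ) =
      Matrix.of fun j => ∑ c, g (a j) c • (fun k => v k c) := by
    ext j k
    simp [Matrix.mulVec, dotProduct, Finset.sum_apply]
  rw [h1]
  change _ = (Matrix.detRowAlternating (n := Fin n) (R := ℂ)).toMultilinearMap
    (fun j => ∑ c, g (a j) c • (fun k => v k c))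
  rw [MultilinearMap.map_sum]
  refine sum_congr rfl fun c _ => ?_
  rw [MultilinearMap.map_smul_univ, smul_eq_mul]
  rfl

/-- the action on `(v_1 ∧ ... ∧ v_n)^{⊗d}` -/
theorem act_wedge {m n : ℕ} (d : ℕ) (g : Matrix (Fin m) (Fin m) ℂ) (v : Fin n → Fin m → ℂ) :
    act g (wedgePow d v) = wedgePow d (fun k => g.mulVec (v k)) := by
  classical
  ext a
  simp only [act, wedgePow]
  simp only [← det_expand]
  rw [Finset.prod_univ_sum]
  simp only [Fintype.piFinset_univ]
  refine Fintype.sum_equiv (Equiv.curry _ _ _) _ _ ?_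
  intro b
  rw [prod_mul_distrib]
  congr 1
  rw [Fintype.prod_prod_type]
  rfl

/-- the tensor `(e_1 ∧ ... ∧ e_n)^{⊗d}` in dimension `n` -/
noncomputable def ww (n d : ℕ) : Tensor n (Fin d × Fin n) := wedgePow d (fun k => Pi.single k 1)

theorem ww_apply (n d : ℕ) (a : Fin d × Fin n → Fin n) :
    ww n d a = ∏ i : Fin d, Matrix.det (Matrix.of fun j k => if a (i, j) = k then (1 : ℂ) else 0) := by
  simp only [ww, wedgePow]
  refine prod_congr rfl fun i _ => ?_
  congr 1
  ext j k
  simp [Pi.single_apply]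

theorem act_ww (n d : ℕ) (Y : Matrix (Fin n) (Fin n) ℂ) : act Y (ww n d) = Y.det ^ d • ww n d := by
  rw [ww, act_wedge]
  ext a
  simp only [wedgePow, Pi.smul_apply, smul_eq_mul]
  have h : ∀ i : Fin d, Matrix.det (Matrix.of fun j k => (Y.mulVec (Pi.single k 1)) (a (i, j))) =
      Y.det * Matrix.det (Matrix.of fun j k => (Pi.single k 1 : Fin n → ℂ) (a (i, j))) := by
    intro i
    rw [mul_comm, ← Matrix.det_mul]
    congr 1
    ext j k
    simp [Matrix.mul_apply, Pi.single_apply]
  simp only [h, prod_mul_distrib, prod_const, card_univ, Fintype.card_fin]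

/-- `det^d` is a polynomial of degree `d` in the coefficients of the product of `n` linear forms
in `n` variables -/
def Good (n d : ℕ) : Prop :=
  ∃ Φ ∈ SdSn n d n, (∀ Y : Matrix (Fin n) (Fin n) ℂ, act Y Φ = Y.det ^ d • Φ) ∧
    Φ (fun x => x.2) ≠ 0

theorem act_perm {n : ℕ} {ι : Type} [Fintype ι] [DecidableEq ι] (σ : Equiv.Perm (Fin n))
    (t : Tensor n ι) (a : ι → Fin n) :
    act (Matrix.of fun j k => if σ j = k then (1 : ℂ) else 0) t a = t (fun x => σ (a x)) := by
  classical
  simp only [act, Matrix.of_apply]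
  rw [sum_eq_single (fun x => σ (a x))]
  · simp
  · intro b _ hb
    obtain ⟨x, hx⟩ := Function.ne_iff.1 hb
    rw [prod_eq_zero (mem_univ x) (if_neg (Ne.symm hx)), zero_mul]
  · intro h
    exact absurd (mem_univ _) h

theorem det_perm {n : ℕ} (σ : Equiv.Perm (Fin n)) :
    Matrix.det (Matrix.of fun j k => if σ j = k then (1 : ℂ) else 0) =
      ((Equiv.Perm.sign σ : ℤ) : ℂ) := by
  have h : (Matrix.of fun j k => if σ j = k then (1 : ℂ) else 0) =
      ((1 : Matrix (Fin n) (Fin n) ℂ)).submatrix σ id := by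
    ext j k
    simp [Matrix.one_apply]
  rw [h, Matrix.det_permute, Matrix.det_one, mul_one]

theorem sign_pow_even {n : ℕ} (σ : Equiv.Perm (Fin n)) {d : ℕ} (hd : Even d) :
    (((Equiv.Perm.sign σ : ℤ) : ℂ)) ^ d = 1 := by
  rcases Int.units_eq_one_or (Equiv.Perm.sign σ) with h | h
  · rw [h]; simp
  · rw [h]
    simp [hd.neg_one_pow]

/-- the value of the symmetrization over the blocks at the diagonal index, for a semi-invariant
tensor -/
theorem symOut_diag {n d : ℕ} (hd : Even d) (t : Tensor n (Fin n × Fin d))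
    (ht : ∀ Y : Matrix (Fin n) (Fin n) ℂ, act Y t = Y.det ^ d • t) :
    symOut t (fun x => x.1) = t (fun x => x.1) := by
  have h : ∀ σ : Equiv.Perm (Fin n), t (fun x => σ x.1) = t (fun x => x.1) := by
    intro σ
    rw [← act_perm σ t (fun x => x.1), ht, det_perm, Pi.smul_apply, sign_pow_even σ hd, one_smul]
  simp only [symOut, h]
  rw [sum_const, card_univ, Fintype.card_perm, Fintype.card_fin, nsmul_eq_mul, ← mul_assoc,
    inv_mul_cancel₀ (fact_ne n), one_mul]

theorem symIn_diag {n d : ℕ} (t : Tensor n (Fin n × Fin d)) :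
    symIn t (fun x => x.1) = t (fun x => x.1) := by
  simp only [symIn]
  rw [sum_const, card_univ, Fintype.card_fun, Fintype.card_perm, Fintype.card_fin,
    Fintype.card_fin, nsmul_eq_mul, ← mul_assoc]
  push_cast
  rw [inv_mul_cancel₀ (pow_ne_zero _ (fact_ne d)), one_mul]

theorem hhh_semi {k l : ℕ} {m : ℕ} {c : Matrix (Fin m) (Fin m) ℂ → ℂ} (t : Tensor m (Fin k × Fin l))
    (ht : ∀ Y : Matrix (Fin m) (Fin m) ℂ, act Y t = c Y • t) (Y : Matrix (Fin m) (Fin m) ℂ) :
    act Y (hhh t) = c Y • hhh t := by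
  rw [act_hhh, ht]
  simp only [hhh_eq, regroup_eq, sym, symIn_eq, symOut_eq, mv_smul, ← smul_sum]
  simp only [smul_comm (c Y)]

theorem hhh_diag {n d : ℕ} (hd : Even d) (t : Tensor n (Fin d × Fin n))
    (ht : ∀ Y : Matrix (Fin n) (Fin n) ℂ, act Y t = Y.det ^ d • t) :
    hhh t (fun x => x.1) = t (fun x => x.2) := by
  rw [hhh, symOut_diag hd, symIn_diag]
  · rfl
  · intro Y
    rw [act_symIn, act_regroup, ht]
    simp only [regroup_eq, symIn_eq, mv_smul, ← smul_sum]
    simp only [smul_comm (Y.det ^ d)]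

theorem ww_diag (n d : ℕ) : ww n d (fun x => x.2) = 1 := by
  rw [ww_apply]
  refine prod_eq_one fun i _ => ?_
  have : (Matrix.of fun j k : Fin n => if j = k then (1 : ℂ) else 0) = 1 := by
    ext j k
    simp [Matrix.one_apply]
  rw [this, Matrix.det_one]

/-- the image of a semi-invariant tensor under `h` is a multiple of the image of `ww` -/
theorem hhh_unique {n d : ℕ} (hd : Even d) (t : Tensor n (Fin d × Fin n))
    (ht : ∀ Y : Matrix (Fin n) (Fin n) ℂ, act Y t = Y.det ^ d • t) :
    hhh t = t (fun x => x.2) • hhh (ww n d) := by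
  rw [← sub_eq_zero]
  apply eq_zero_of_eval
  · intro τ a
    have h1 := (hhh_mem t).1 τ a
    have h2 := (hhh_mem (ww n d)).1 τ a
    simp only [Pi.sub_apply, Pi.smul_apply, h1, h2]
  · intro Y
    have h1 := hhh_semi (c := fun Y => Y.det ^ d) t ht Y
    have h2 := hhh_semi (c := fun Y => Y.det ^ d) (ww n d) (act_ww n d) Y
    have h3 : act Y (hhh t - t (fun x => x.2) • hhh (ww n d)) =
        act Y (hhh t) - t (fun x => x.2) • act Y (hhh (ww n d)) := by
      rw [sub_eq_add_neg, act_add, ← neg_one_smul ℂ, act_smul, act_smul, neg_one_smul,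
        ← sub_eq_add_neg]
    rw [h3, h1, h2]
    simp only [Pi.sub_apply, Pi.smul_apply, smul_eq_mul]
    rw [hhh_diag hd t ht, hhh_diag hd (ww n d) (act_ww n d), ww_diag]
    ring

theorem hww_ne {n d : ℕ} (hd : Even d) : hhh (ww n d) ≠ 0 := by
  intro h0
  have h1 := hhh_diag hd (ww n d) (act_ww n d)
  rw [h0, ww_diag] at h1
  exact zero_ne_one h1

/-- the criterion, first direction -/
theorem good_ne {n d : ℕ} (hd : Even d) (h : Good n d) : hhh (hhh (ww n d)) ≠ 0 := by
  obtain ⟨Φ, hΦ, h1, h2⟩ := h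
  intro h0
  have h3 : ip (hhh (hhh (ww n d))) Φ = Φ (fun x => x.2) * ip (hhh (ww n d)) (hhh (ww n d)) := by
    rw [hhh_eq (hhh (ww n d)), ip_sym, sym_of_mem hΦ, ip_regroup, ← ip_smul_right,
      ← hhh_unique hd Φ h1, hhh_eq Φ, ← ip_sym, hhh_eq (ww n d), sym_sym]
  rw [h0] at h3
  have h4 : ip (0 : Tensor n (Fin d × Fin n)) Φ = 0 := by simp [ip]
  rw [h4] at h3
  exact mul_ne_zero h2 (ip_self_ne_zero (hww_ne hd)) h3.symm

/-- the criterion, second direction -/
theorem good_of_diag {n d : ℕ} (h : hhh (hhh (ww n d)) (fun x => x.2) ≠ 0) : Good n d :=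
  ⟨hhh (hhh (ww n d)), hhh_mem _, fun Y => hhh_semi (c := fun Y => Y.det ^ d) _
    (hhh_semi (c := fun Y => Y.det ^ d) _ (act_ww n d)) Y, h⟩

end Pool.Agent.T6.H18.HH
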