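import Mathlib
import Pool.Agent.T6.H18.HH.Uniq

/-!
# From dimension `n` to arbitrary dimension; sums of degrees
-/

set_option autoImplicit false

namespace Pool.Agent.T6.H18.HH

open Finset

theorem hhh_add {m k l : ℕ} (s t : Tensor m (Fin k × Fin l)) : hhh (s + t) = hhh s + hhh t := by
  ext a
  simp only [hhh, symOut, symIn, regroup, Pi.add_apply, mul_add, sum_add_distrib]

theorem hhh_smul {m k l : ℕ} (c : ℂ) (t : Tensor m (Fin k × Fin l)) : hhh (c • t) = c • hhh t := by
  simp only [hhh_eq, regroup_eq, sym, symIn_eq, symOut_eq, mv_smul, ← smul_sum]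
  simp only [smul_comm c]

/-- `h` as a linear map -/
noncomputable def hhhL (m k l : ℕ) : Tensor m (Fin k × Fin l) →ₗ[ℂ] Tensor m (Fin l × Fin k) where
  toFun := hhh
  map_add' := hhh_add
  map_smul' := hhh_smul

/-- restriction to the indices of a subspace -/
def res {m n : ℕ} {ι : Type} (h : n ≤ m) (t : Tensor m ι) : Tensor n ι :=
  fun a => t (fun x => Fin.castLE h (a x))

theorem res_hhh {m n k l : ℕ} (h : n ≤ m) (t : Tensor m (Fin k × Fin l)) :
    res h (hhh t) = hhh (res h t) := rfl

theorem res_wedge {m n d : ℕ} (h : n ≤ m) :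
    res h (wedgePow d (fun k : Fin n => Pi.single (Fin.castLE h k) 1)) = ww n d := by
  ext a
  rw [ww_apply]
  simp only [res, wedgePow]
  refine prod_congr rfl fun i _ => ?_
  congr 1
  ext j k
  simp only [Matrix.of_apply, Pi.single_apply]
  congr 1
  rw [eq_iff_iff, Fin.castLE_inj]

theorem exists_of_ne {m n d : ℕ} (hnm : n ≤ m) (h : hhh (hhh (hhh (ww n d))) ≠ 0) :
    ∃ t ∈ isotypic m d n, hhh t ≠ 0 := by
  let w1 : Tensor m (Fin d × Fin n) := wedgePow d (fun k : Fin n => Pi.single (Fin.castLE hnm k) 1)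
  refine ⟨hhh (hhh w1), Submodule.subset_span ⟨fun w => hhh (hhh w), ⟨?_, ?_, ?_⟩, ?_, w1,
    Submodule.subset_span ⟨_, rfl⟩, rfl⟩, ?_⟩
  · intro w _ w' _
    simp only [hhh_add]
  · intro c w _
    simp only [hhh_smul]
  · intro g w _
    simp only [act_hhh]
  · intro w _
    exact hhh_mem _
  · intro h0
    apply h
    have h1 := congrArg (res hnm) h0
    rw [res_hhh, res_hhh, res_hhh, res_wedge] at h1
    rw [h1]
    rfl

theorem exists_of_good {m n d : ℕ} (hd : Even d) (hnm : n ≤ m) (h : Good n d) :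
    ∃ t ∈ isotypic m d n, hhh t ≠ 0 :=
  exists_of_ne hnm (hhh3_ne (good_ne hd h))

/-- the good degrees form a semigroup -/
theorem Good.add {n d e : ℕ} (h1 : Good n d) (h2 : Good n e) : Good n (d + e) := by
  classical
  obtain ⟨Φ, hΦ, a1, a2⟩ := h1
  obtain ⟨Ψ, hΨ, b1, b2⟩ := h2
  -- the product
  let Θ : Tensor n (Fin (d + e) × Fin n) := fun a =>
    Φ (fun x => a (Fin.castAdd e x.1, x.2)) * Ψ (fun x => a (Fin.natAdd d x.1, x.2))
  have hΘ : ∀ Y : Matrix (Fin n) (Fin n) ℂ, act Y Θ = Y.det ^ (d + e) • Θ := by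
    intro Y
    ext a
    have c1 := congrFun (a1 Y) (fun x => a (Fin.castAdd e x.1, x.2))
    have c2 := congrFun (b1 Y) (fun x => a (Fin.natAdd d x.1, x.2))
    simp only [Pi.smul_apply, smul_eq_mul] at c1 c2 ⊢
    have c3 : Y.det ^ (d + e) * Θ a =
        (Y.det ^ d * Φ (fun x => a (Fin.castAdd e x.1, x.2))) *
        (Y.det ^ e * Ψ (fun x => a (Fin.natAdd d x.1, x.2))) := by
      simp only [Θ, pow_add]
      ring
    rw [c3, ← c1, ← c2]
    simp only [act, sum_mul_sum]
    rw [← Fintype.sum_prod_type']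
    -- indices of the product
    let E : (Fin (d + e) × Fin n → Fin n) ≃ (Fin d × Fin n → Fin n) × (Fin e × Fin n → Fin n) :=
      { toFun := fun b => (fun x => b (Fin.castAdd e x.1, x.2), fun x => b (Fin.natAdd d x.1, x.2))
        invFun := fun c => fun x => Fin.addCases (motive := fun _ => Fin n)
          (fun i => c.1 (i, x.2)) (fun i => c.2 (i, x.2)) x.1
        left_inv := by
          intro b
          ext x
          obtain ⟨i, j⟩ := x
          refine Fin.addCases (fun i => ?_) (fun i => ?_) i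
          · simp
          · simp
        right_inv := by
          intro c
          ext x
          · simp
          · simp }
    refine Fintype.sum_equiv E _ _ ?_
    intro b
    simp only [Θ, E, Equiv.coe_fn_mk]
    rw [Fintype.prod_prod_type, Fin.prod_univ_add, ← Fintype.prod_prod_type',
      ← Fintype.prod_prod_type']
    ring
  refine ⟨sym Θ, sym_mem _, ?_, ?_⟩
  · intro Y
    rw [sym, act_symOut, act_symIn, hΘ]
    simp only [sym, symIn_eq, symOut_eq, mv_smul, ← smul_sum]
    simp only [smul_comm (Y.det ^ (d + e))]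
  · have h3 : symIn Θ (fun x => x.2) = Θ (fun x => x.2) := by
      have h4 : ∀ τ : Fin (d + e) → Equiv.Perm (Fin n), Θ (fun x => τ x.1 x.2) = Θ (fun x => x.2) := by
        intro τ
        simp only [Θ]
        have e1 := hΦ.1 (fun i => τ (Fin.castAdd e i)) (fun x => x.2)
        have e2 := hΨ.1 (fun i => τ (Fin.natAdd d i)) (fun x => x.2)
        simp only at e1 e2
        rw [e1, e2]
      simp only [symIn, h4]
      rw [sum_const, card_univ, Fintype.card_fun, Fintype.card_perm, Fintype.card_fin,
        Fintype.card_fin, nsmul_eq_mul, ← mul_assoc]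
      push_cast
      rw [inv_mul_cancel₀ (pow_ne_zero _ (fact_ne n)), one_mul]
    have h5 : sym Θ (fun x => x.2) = Θ (fun x => x.2) := by
      simp only [sym, symOut]
      rw [sum_const, card_univ, Fintype.card_perm, Fintype.card_fin, nsmul_eq_mul, ← mul_assoc,
        inv_mul_cancel₀ (fact_ne _), one_mul, h3]
    rw [h5]
    exact mul_ne_zero a2 b2

end Pool.Agent.T6.H18.HH
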