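import Mathlib
import Pool.Agent.T6.H18.HH.Transfer

/-!
# The degrees `p - 1`
-/

set_option autoImplicit false

namespace Pool.Agent.T6.H18.HH

open Finset

/-- the sum of `(-1)^|U|` over the sets `U` avoiding the image of `c` -/
theorem sum_avoid {R : Type} [CommRing R] {d : ℕ} (c : Fin d → Fin d) :
    ∑ U : Finset (Fin d), (if ∀ i, c i ∉ U then (-1 : R) ^ U.card else 0) =
      if Function.Bijective c then 1 else 0 := by
  classical
  have h1 : ∀ U : Finset (Fin d), (∀ i, c i ∉ U) ↔ U ∈ ((univ.image c)ᶜ).powerset := by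
    intro U
    rw [mem_powerset]
    constructor
    · intro h x hx
      rw [mem_compl, mem_image]
      rintro ⟨i, -, rfl⟩
      exact h i hx
    · intro h i hi
      have := h hi
      rw [mem_compl, mem_image] at this
      exact this ⟨i, mem_univ i, rfl⟩
  simp only [h1]
  rw [← sum_filter]
  have h2 : (univ.filter fun U => U ∈ ((univ.image c)ᶜ).powerset) = ((univ.image c)ᶜ).powerset := by
    ext U
    simp
  rw [h2]
  have h3 := Finset.sum_powerset_neg_one_pow_card (x := (univ.image c)ᶜ)
  have h4 : ∑ U ∈ ((univ.image c)ᶜ).powerset, (-1 : R) ^ U.card =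
      ((∑ U ∈ ((univ.image c)ᶜ).powerset, (-1 : ℤ) ^ U.card : ℤ) : R) := by
    push_cast
    rfl
  rw [h4, h3]
  have h5 : (univ.image c)ᶜ = ∅ ↔ Function.Bijective c := by
    rw [compl_eq_empty_iff, eq_univ_iff_forall]
    constructor
    · intro h
      have hs : Function.Surjective c := by
        intro x
        obtain ⟨i, -, hi⟩ := mem_image.1 (h x)
        exact ⟨i, hi⟩
      exact ⟨Finite.injective_iff_surjective.2 hs, hs⟩
    · intro h x
      obtain ⟨i, hi⟩ := h.2 x
      exact mem_image.2 ⟨i, mem_univ i, hi⟩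
  by_cases hb : Function.Bijective c
  · rw [if_pos hb, if_pos (h5.2 hb)]
    simp
  · rw [if_neg hb, if_neg (fun h => hb (h5.1 h))]
    simp

/-- polarization -/
theorem polar {R : Type} [CommRing R] {n d : ℕ} (D : (Fin n → Fin d) → R) :
    ∑ U : Fin n → Finset (Fin d), (∏ j, (-1 : R) ^ (U j).card) *
      (∑ c : Fin n → Fin d, if ∀ j, c j ∉ U j then D c else 0) ^ d =
      ∑ κ : Fin n → Equiv.Perm (Fin d), ∏ i, D (fun j => κ j i) := by
  classical
  have h1 : ∀ U : Fin n → Finset (Fin d),
      (∑ c : Fin n → Fin d, if ∀ j, c j ∉ U j then D c else 0) ^ d =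
      ∑ c : Fin d → Fin n → Fin d, if ∀ i j, c i j ∉ U j then ∏ i, D (c i) else 0 := by
    intro U
    have h2 := Fintype.sum_pow (fun c : Fin n → Fin d => if ∀ j, c j ∉ U j then D c else 0) d
    rw [h2]
    refine sum_congr rfl fun c _ => ?_
    by_cases h : ∀ i j, c i j ∉ U j
    · rw [if_pos h]
      exact prod_congr rfl fun i _ => if_pos (h i)
    · rw [if_neg h]
      push Not at h
      obtain ⟨i, j, hij⟩ := h
      exact prod_eq_zero (mem_univ i) (if_neg (fun h => h j hij))
  simp only [h1, mul_sum]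
  rw [sum_comm]
  have h3 : ∀ c : Fin d → Fin n → Fin d,
      ∑ U : Fin n → Finset (Fin d), (∏ j, (-1 : R) ^ (U j).card) *
        (if ∀ i j, c i j ∉ U j then ∏ i, D (c i) else 0) =
      if ∀ j, Function.Bijective (fun i => c i j) then ∏ i, D (c i) else 0 := by
    intro c
    have h4 : ∀ U : Fin n → Finset (Fin d), (∏ j, (-1 : R) ^ (U j).card) *
        (if ∀ i j, c i j ∉ U j then ∏ i, D (c i) else 0) =
        (∏ j, if ∀ i, c i j ∉ U j then (-1 : R) ^ (U j).card else 0) * ∏ i, D (c i) := by
      intro U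
      by_cases h : ∀ i j, c i j ∉ U j
      · rw [if_pos h]
        congr 1
        exact prod_congr rfl fun j _ => (if_pos (fun i => h i j)).symm
      · rw [if_neg h, mul_zero]
        push Not at h
        obtain ⟨i, j, hij⟩ := h
        rw [prod_eq_zero (mem_univ j) (if_neg (fun h => h i hij)), zero_mul]
    simp only [h4]
    rw [← sum_mul]
    have h5 := Finset.prod_univ_sum (fun _ : Fin n => (univ : Finset (Finset (Fin d))))
      (fun j U => if ∀ i, c i j ∉ U then (-1 : R) ^ U.card else 0)
    rw [Fintype.piFinset_univ] at h5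
    rw [← h5]
    simp only [sum_avoid]
    by_cases h : ∀ j, Function.Bijective (fun i => c i j)
    · rw [if_pos h, prod_congr rfl (fun j _ => if_pos (h j)), prod_const_one, one_mul]
    · rw [if_neg h]
      push Not at h
      obtain ⟨j, hj⟩ := h
      rw [prod_eq_zero (mem_univ j) (if_neg hj), zero_mul]
  simp only [h3]
  rw [← sum_filter]
  have h6 : ∀ c ∈ univ.filter (fun c : Fin d → Fin n → Fin d =>
      ∀ j, Function.Bijective (fun i => c i j)), ∀ j, Function.Bijective (fun i => c i j) :=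
    fun c hc => (mem_filter.1 hc).2
  refine (sum_bij' (fun (κ : Fin n → Equiv.Perm (Fin d)) _ => fun i j => κ j i)
    (fun c hc => fun j => Equiv.ofBijective (fun i => c i j) (h6 c hc j)) ?_ ?_ ?_ ?_ ?_).symm
  · intro κ _
    rw [mem_filter]
    exact ⟨mem_univ _, fun j => (κ j).bijective⟩
  · intro c _
    exact mem_univ _
  · intro κ _
    ext j i
    rfl
  · intro c _
    rfl
  · intro κ _
    rfl

/-- the determinant of the 0-1 matrix of a function -/
def eps (R : Type) [CommRing R] {n : ℕ} (c : Fin n → Fin n) : R :=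
  Matrix.det (Matrix.of fun j k => if c j = k then (1 : R) else 0)

/-- the signed sum -/
def EE (R : Type) [CommRing R] {n d : ℕ} (a : Fin d → Fin n → Fin n) : R :=
  ∑ κ : Fin n → Equiv.Perm (Fin d), ∏ i, eps R (fun j => a (κ j i) j)

/-- expansion of a determinant by multilinearity in the rows -/
theorem det_rows {R : Type} [CommRing R] {n d : ℕ} (a : Fin d → Fin n → Fin n)
    (U : Fin n → Finset (Fin d)) :
    (∑ c : Fin n → Fin d, if ∀ j, c j ∉ U j then eps R (fun j => a (c j) j) else 0) =
      Matrix.det (Matrix.of fun j k => ∑ i, if i ∉ U j ∧ a i j = k then (1 : R) else 0) := by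
  classical
  have h1 : (Matrix.of fun j k => ∑ i, if i ∉ U j ∧ a i j = k then (1 : R) else 0) =
      Matrix.of fun j => ∑ i, (if i ∉ U j then (1 : R) else 0) •
        (fun k => if a i j = k then (1 : R) else 0) := by
    ext j k
    simp only [Matrix.of_apply, Finset.sum_apply, Pi.smul_apply, smul_eq_mul]
    refine sum_congr rfl fun i _ => ?_
    by_cases h2 : i ∉ U j <;> by_cases h3 : a i j = k <;> simp [h2, h3]
  rw [h1]
  change _ = (Matrix.detRowAlternating (n := Fin n) (R := R)).toMultilinearMap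
    (fun j => ∑ i, (if i ∉ U j then (1 : R) else 0) • (fun k => if a i j = k then (1 : R) else 0))
  rw [MultilinearMap.map_sum]
  refine sum_congr rfl fun c _ => ?_
  rw [MultilinearMap.map_smul_univ, smul_eq_mul]
  by_cases h : ∀ j, c j ∉ U j
  · rw [if_pos h]
    simp only [h, not_false_eq_true, if_true, prod_const_one, one_mul]
    rfl
  · rw [if_neg h]
    push Not at h
    obtain ⟨j, hj⟩ := h
    rw [prod_eq_zero (mem_univ j) (by simp [hj]), zero_mul]

section prime

variable {p : ℕ} [Fact p.Prime]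

theorem sum_pow_sub_one : ∑ x : ZMod p, x ^ (p - 1) = -1 := by
  have h1 : ∀ x : ZMod p, x ^ (p - 1) = if x = 0 then 0 else 1 := by
    intro x
    by_cases hx : x = 0
    · rw [if_pos hx, hx, zero_pow]
      have := (Fact.out : p.Prime).two_le
      omega
    · rw [if_neg hx, ZMod.pow_card_sub_one_eq_one hx]
  simp only [h1]
  have h2 : ∀ x : ZMod p, (if x = 0 then (0 : ZMod p) else 1) = 1 - if x = 0 then 1 else 0 := by
    intro x
    by_cases hx : x = 0 <;> simp [hx]
  simp only [h2, sum_sub_distrib, sum_ite_eq', mem_univ, if_true, sum_const, card_univ, ZMod.card]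
  simp

theorem sum_prod_pow (n : ℕ) : ∑ t : Fin n → ZMod p, ∏ j, t j ^ (p - 1) = (-1) ^ n := by
  have h := Finset.prod_univ_sum (fun _ : Fin n => (univ : Finset (ZMod p)))
      (fun _ x => x ^ (p - 1))
  rw [Fintype.piFinset_univ] at h
  rw [← h]
  simp only [sum_pow_sub_one, prod_const, card_univ, Fintype.card_fin]

/-- the power `p - 1` of a determinant over the field with `p` elements -/
theorem det_pow {n : ℕ} (X : Matrix (Fin n) (Fin n) (ZMod p)) :
    X.det ^ (p - 1) = (-1) ^ n * ∑ t : Fin n → ZMod p, ∏ j, (X.mulVec t j) ^ (p - 1) := by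
  classical
  have hp1 : p - 1 ≠ 0 := by
    have := (Fact.out : p.Prime).two_le
    omega
  by_cases hX : X.det = 0
  · rw [hX, zero_pow hp1]
    obtain ⟨u, hu, hXu⟩ := Matrix.exists_mulVec_eq_zero_iff.2 hX
    obtain ⟨k, hk⟩ := Function.ne_iff.1 hu
    set G : (Fin n → ZMod p) → ZMod p := fun t => ∏ j, (X.mulVec t j) ^ (p - 1) with hG
    have hGu : ∀ t, G (t + u) = G t := by
      intro t
      simp only [hG, Matrix.mulVec_add, hXu, add_zero]
    have h1 : ∑ t, G t * t k = ∑ t, G t * t k + u k * ∑ t, G t := by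
      conv_lhs => rw [← Equiv.sum_comp (Equiv.addRight u)]
      simp only [Equiv.coe_addRight, hGu, Pi.add_apply, mul_add, sum_add_distrib, mul_sum]
      congr 1
      exact sum_congr rfl fun t _ => mul_comm _ _
    have h2 : u k * ∑ t, G t = 0 := by
      have := h1
      rw [left_eq_add] at this
      exact this
    rcases mul_eq_zero.1 h2 with h3 | h3
    · exact absurd h3 hk
    · change 0 = (-1) ^ n * ∑ t, G t
      rw [h3, mul_zero]
  · rw [ZMod.pow_card_sub_one_eq_one hX]
    have hunit : IsUnit X.det := isUnit_iff_ne_zero.2 hX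
    have hbij : Function.Bijective (fun t => X.mulVec t) := by
      have hi : Function.Injective (fun t => X.mulVec t) :=
        Matrix.mulVec_injective_iff_isUnit.2 ((Matrix.isUnit_iff_isUnit_det _).2 hunit)
      exact hi.bijective_of_finite
    have h1 : ∑ t : Fin n → ZMod p, ∏ j, (X.mulVec t j) ^ (p - 1) =
        ∑ t : Fin n → ZMod p, ∏ j, t j ^ (p - 1) :=
      Fintype.sum_bijective _ hbij _ _ fun t => rfl
    rw [h1, sum_prod_pow, ← pow_add, ← two_mul, pow_mul]
    simp

/-- the signed sum modulo `p` -/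
theorem EE_mod {n : ℕ} (a : Fin (p - 1) → Fin n → Fin n) (ha : ∀ i, Function.Bijective (a i)) :
    EE (ZMod p) a = (-1) ^ n := by
  classical
  have h1 := polar (R := ZMod p) (n := n) (d := p - 1) (fun c => eps (ZMod p) (fun j => a (c j) j))
  rw [EE, ← h1]
  simp only [det_rows, det_pow]
  have h2 : ∀ (U : Fin n → Finset (Fin (p - 1))) (t : Fin n → ZMod p),
      ∏ j, ((Matrix.of fun j k => ∑ i, if i ∉ U j ∧ a i j = k then (1 : ZMod p) else 0).mulVec t
        j) ^ (p - 1) =
      (∑ c : Fin n → Fin (p - 1), if ∀ j, c j ∉ U j then ∏ j, t (a (c j) j) else 0) ^ (p - 1) := by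
    intro U t
    rw [prod_pow]
    congr 1
    have h3 : ∀ j, (Matrix.of fun j k => ∑ i, if i ∉ U j ∧ a i j = k then (1 : ZMod p)
        else 0).mulVec t j = ∑ i, if i ∉ U j then t (a i j) else 0 := by
      intro j
      simp only [Matrix.mulVec, dotProduct, Matrix.of_apply, sum_mul]
      rw [sum_comm]
      refine sum_congr rfl fun i _ => ?_
      by_cases hi : i ∉ U j
      · simp [hi]
      · simp [hi]
    simp only [h3]
    rw [Finset.prod_univ_sum]
    rw [Fintype.piFinset_univ]
    refine sum_congr rfl fun c _ => ?_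
    by_cases h : ∀ j, c j ∉ U j
    · rw [if_pos h]
      exact prod_congr rfl fun j _ => if_pos (h j)
    · rw [if_neg h]
      push Not at h
      obtain ⟨j, hj⟩ := h
      exact prod_eq_zero (mem_univ j) (by simp [hj])
  simp only [h2]
  have h4 : ∑ U : Fin n → Finset (Fin (p - 1)), (∏ j, (-1 : ZMod p) ^ (U j).card) *
      ((-1) ^ n * ∑ t : Fin n → ZMod p, (∑ c : Fin n → Fin (p - 1),
        if ∀ j, c j ∉ U j then ∏ j, t (a (c j) j) else 0) ^ (p - 1)) =
      (-1) ^ n * ∑ t : Fin n → ZMod p, ∑ κ : Fin n → Equiv.Perm (Fin (p - 1)),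
        ∏ i, ∏ j, t (a (κ j i) j) := by
    have h5 : ∀ t : Fin n → ZMod p, ∑ κ : Fin n → Equiv.Perm (Fin (p - 1)),
        ∏ i, ∏ j, t (a (κ j i) j) = ∑ U : Fin n → Finset (Fin (p - 1)),
        (∏ j, (-1 : ZMod p) ^ (U j).card) * (∑ c : Fin n → Fin (p - 1),
        if ∀ j, c j ∉ U j then ∏ j, t (a (c j) j) else 0) ^ (p - 1) :=
      fun t => (polar (R := ZMod p) (n := n) (d := p - 1) (fun c => ∏ j, t (a (c j) j))).symm
    simp only [h5]
    rw [sum_comm, mul_sum]
    refine sum_congr rfl fun U _ => ?_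
    rw [← mul_sum]
    ring
  rw [h4]
  have h6 : ∀ t : Fin n → ZMod p, ∑ κ : Fin n → Equiv.Perm (Fin (p - 1)),
      ∏ i, ∏ j, t (a (κ j i) j) = ((p - 1).factorial : ZMod p) ^ n * ∏ j, t j ^ (p - 1) := by
    intro t
    have h7 : ∀ κ : Fin n → Equiv.Perm (Fin (p - 1)),
        ∏ i, ∏ j, t (a (κ j i) j) = ∏ j, t j ^ (p - 1) := by
      intro κ
      rw [prod_comm]
      have h8 : ∀ j, ∏ i, t (a (κ j i) j) = ∏ i, t (a i j) := fun j =>
        Equiv.prod_comp (κ j) (fun i => t (a i j))
      simp only [h8]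
      rw [prod_comm]
      have h9 : ∀ i, ∏ j, t (a i j) = ∏ j, t j := fun i =>
        (Equiv.ofBijective (a i) (ha i)).prod_comp t
      simp only [h9]
      rw [prod_const, card_univ, Fintype.card_fin, ← prod_pow]
    simp only [h7]
    rw [sum_const, card_univ, Fintype.card_fun, Fintype.card_perm, Fintype.card_fin,
      Fintype.card_fin, nsmul_eq_mul]
    push_cast
    rfl
  simp only [h6]
  rw [← mul_sum, sum_prod_pow, ZMod.wilsons_lemma]
  rw [← mul_assoc, ← pow_add, ← two_mul, pow_mul]
  simp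

end prime

end Pool.Agent.T6.H18.HH
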