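import Mathlib
import Pool.Agent.T6.H18.HH.Prime

/-!
# The degrees `p - 1` are good
-/

set_option autoImplicit false

namespace Pool.Agent.T6.H18.HH

open Finset

theorem eps_cast (R : Type) [CommRing R] {n : ℕ} (c : Fin n → Fin n) :
    ((eps ℤ c : ℤ) : R) = eps R c := by
  rw [eps, eps, Int.cast_det]
  congr 1
  ext j k
  by_cases h : c j = k
  · simp [h]
  · simp [h]

theorem EE_cast (R : Type) [CommRing R] {n d : ℕ} (a : Fin d → Fin n → Fin n) :
    ((EE ℤ a : ℤ) : R) = EE R a := by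
  rw [EE, EE]
  push_cast
  simp only [eps_cast]

/-- the image of `ww` -/
theorem symIn_ww {n d : ℕ} (b : Fin n × Fin d → Fin n) :
    symIn (regroup (ww n d)) b = ((d.factorial : ℂ) ^ n)⁻¹ * EE ℂ (fun i j => b (j, i)) := by
  simp only [symIn, regroup, ww_apply, EE, eps]

theorem hh_diag {n d : ℕ} : hhh (hhh (ww n d)) (fun x => x.2) =
    ((n.factorial : ℂ) ^ d)⁻¹ * ((n.factorial : ℂ)⁻¹ * ((d.factorial : ℂ) ^ n)⁻¹) *
      ((∑ τ : Fin d → Equiv.Perm (Fin n), ∑ σ : Equiv.Perm (Fin n),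
        EE ℤ (fun i j => τ i (σ j)) : ℤ) : ℂ) := by
  have h1 : hhh (hhh (ww n d)) (fun x => x.2) = symIn (regroup (hhh (ww n d))) (fun x => x.2) := by
    rw [hhh]
    simp only [symOut]
    rw [sum_const, card_univ, Fintype.card_perm, Fintype.card_fin, nsmul_eq_mul, ← mul_assoc,
      inv_mul_cancel₀ (fact_ne d), one_mul]
  rw [h1]
  simp only [symIn, regroup]
  rw [mul_assoc]
  congr 1
  push_cast
  rw [mul_sum]
  refine sum_congr rfl fun τ _ => ?_
  rw [hhh]
  simp only [symOut]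
  rw [mul_assoc]
  congr 1
  rw [mul_sum]
  refine sum_congr rfl fun σ _ => ?_
  rw [symIn_ww, EE_cast]

/-- the degree `p - 1` is good -/
theorem good_prime (p : ℕ) [Fact p.Prime] (n : ℕ) (hn : n ≤ p - 1) : Good n (p - 1) := by
  apply good_of_diag
  rw [hh_diag]
  refine mul_ne_zero (mul_ne_zero (inv_ne_zero (pow_ne_zero _ (fact_ne n)))
    (mul_ne_zero (inv_ne_zero (fact_ne n)) (inv_ne_zero (pow_ne_zero _ (fact_ne _))))) ?_
  rw [Int.cast_ne_zero]
  intro h0
  have h1 := congrArg (fun z : ℤ => (z : ZMod p)) h0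
  push_cast at h1
  simp only [EE_cast] at h1
  have h2 : ∀ (τ : Fin (p - 1) → Equiv.Perm (Fin n)) (σ : Equiv.Perm (Fin n)),
      EE (ZMod p) (fun i j => τ i (σ j)) = (-1) ^ n := by
    intro τ σ
    exact EE_mod _ fun i => (τ i).bijective.comp σ.bijective
  simp only [h2] at h1
  rw [sum_const, sum_const, card_univ, card_univ, Fintype.card_fun, Fintype.card_perm,
    Fintype.card_fin, Fintype.card_fin, nsmul_eq_mul, nsmul_eq_mul] at h1
  have hp := (Fact.out : p.Prime)
  have hfac : ((n.factorial : ℕ) : ZMod p) ≠ 0 := by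
    rw [Ne, ZMod.natCast_eq_zero_iff, hp.dvd_factorial]
    have := hp.pos
    omega
  push_cast at h1
  have h3 : ((-1 : ZMod p)) ^ n ≠ 0 := pow_ne_zero _ (neg_ne_zero.2 one_ne_zero)
  exact mul_ne_zero (pow_ne_zero _ hfac) (mul_ne_zero hfac h3) h1

end Pool.Agent.T6.H18.HH
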