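import Mathlib
import Pool.Agent.W93.PG6

/-!
# Sums of two and of three almost equal primes
-/

set_option autoImplicit false

namespace Pool.Agent.T6.H18.HH

open Finset hiding val
open Pool.Agent.W93.GB
open Pool.Agent.W93.PG
open Pool.Agent.H560R3.GB (sing)
open Pool.Agent.W93.RD (Str pw val)

/-- binary digits -/
theorem exists_digits (k : ℕ) : ∀ m : ℕ, m < 2 ^ k → ∃ d ∈ Str 2 k, val 2 d = m := by
  induction k with
  | zero =>
    intro m hm
    refine ⟨fun _ => 0, ?_, ?_⟩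
    · rw [Str, Fintype.mem_piFinset]
      exact fun j => j.elim0
    · simp only [pow_zero, Nat.lt_one_iff] at hm
      rw [val, hm]
      rfl
  | succ k ih =>
    intro m hm
    obtain ⟨d, hd, hv⟩ := ih (m / 2) (by rw [pow_succ] at hm; omega)
    refine ⟨Fin.cons (m % 2) d, ?_, ?_⟩
    · rw [Str, Fintype.mem_piFinset] at hd ⊢
      intro j
      refine Fin.cases ?_ (fun i => ?_) j
      · rw [Fin.cons_zero, mem_range]
        exact Nat.mod_lt _ (by norm_num)
      · rw [Fin.cons_succ]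
        exact hd i
    · rw [val, Fin.sum_univ_succ]
      simp only [Fin.cons_zero, Fin.cons_succ, Fin.val_zero, Fin.val_succ, pow_zero, mul_one]
      have h1 : ∑ i : Fin k, d i * 2 ^ ((i : ℕ) + 1) = 2 * val 2 d := by
        rw [val, mul_sum]
        exact sum_congr rfl fun i _ => by ring
      rw [h1, hv]
      omega

/-- the exceptional set for the Goldbach problem in windows -/
noncomputable def exc (k : ℕ) : Finset ℕ := by
  classical
  exact (range (2 ^ k)).filter fun m => 0 < m ∧ 2 ∣ m ∧ ¬ WinP (1 / 2) 1 m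

theorem mem_exc {k m : ℕ} : m ∈ exc k ↔ m < 2 ^ k ∧ 0 < m ∧ 2 ∣ m ∧ ¬ WinP (1 / 2) 1 m := by
  classical
  rw [exc, mem_filter, mem_range]

theorem card_exc (U : ℕ) : ∃ k₀ : ℕ, ∀ k, k₀ ≤ k → ((exc k).card : ℝ) ≤ 2 ^ k / (k : ℝ) ^ U := by
  classical
  obtain ⟨k₀, h⟩ := pg_windows 2 2 0 1 U 0 le_rfl (1 / 2) (1 / 2) (by norm_num) (by norm_num)
    (WinP (1 / 2) 1) (fun m _ _ h => h)
  refine ⟨k₀, fun k hk => ?_⟩
  have h1 := h k hk (fun _ _ => 1 / 2) (fun _ _ _ => by norm_num) (fun _ _ _ => by norm_num)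
    (fun _ _ => by norm_num) 0 (by simp)
    (fun d => 0 < (0 : ℤ) + (val 2 d : ℤ) ∧ 2 ∣ (0 : ℤ) + (val 2 d : ℤ) ∧
      ¬ WinP (1 / 2) 1 ((0 : ℤ) + (val 2 d : ℤ)).toNat) (Classical.decPred _) (fun d _ h => h)
  have h2 : ∀ d : Fin k → ℕ, pw (fun _ _ => (1 / 2 : ℝ)) d = (1 / 2) ^ k := by
    intro d
    rw [pw, prod_const, card_univ, Fintype.card_fin]
  simp only [h2] at h1
  rw [← sum_filter, sum_const, nsmul_eq_mul] at h1
  have h3 : exc k ⊆ ((Str 2 k).filter fun d => 0 < (0 : ℤ) + (val 2 d : ℤ) ∧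
      2 ∣ (0 : ℤ) + (val 2 d : ℤ) ∧ ¬ WinP (1 / 2) 1 ((0 : ℤ) + (val 2 d : ℤ)).toNat).image
      (fun d => val 2 d) := by
    intro m hm
    obtain ⟨a, b, c, e⟩ := mem_exc.1 hm
    obtain ⟨d, hd, hv⟩ := exists_digits k m a
    rw [mem_image]
    refine ⟨d, ?_, hv⟩
    rw [mem_filter]
    refine ⟨hd, ?_, ?_, ?_⟩
    · rw [hv, zero_add]
      exact_mod_cast b
    · rw [hv, zero_add]
      exact_mod_cast c
    · rw [hv, zero_add, Int.toNat_natCast]
      exact e
  have h4 := (card_le_card h3).trans card_image_le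
  have h5 : ((exc k).card : ℝ) * (1 / 2) ^ k ≤ 1 / (k : ℝ) ^ U := by
    refine le_trans (mul_le_mul_of_nonneg_right ?_ (by positivity)) h1
    refine le_trans (Nat.cast_le.2 h4) (le_of_eq ?_)
    congr
  have h6 : ((exc k).card : ℝ) = ((exc k).card : ℝ) * (1 / 2) ^ k * 2 ^ k := by
    rw [mul_assoc, ← mul_pow]
    norm_num
  rw [h6]
  calc ((exc k).card : ℝ) * (1 / 2) ^ k * 2 ^ k ≤ 1 / (k : ℝ) ^ U * 2 ^ k :=
        mul_le_mul_of_nonneg_right h5 (by positivity)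
    _ = 2 ^ k / (k : ℝ) ^ U := by ring

/-- the number of primes in a window -/
theorem cnt_lower {m y₁ y₂ : ℕ} (h : WinP (1 / 2) 1 m) (h1 : y₁ < y₂) (h2 : y₂ ≤ m)
    (h3 : (m : ℝ) / Real.log m ≤ (y₂ : ℝ) - y₁) :
    ((y₂ : ℝ) - y₁) / (2 * Real.log m ^ 2) ≤ cnt m y₁ y₂ := by
  have h4 := h y₁ y₂ h1 h2 (by rw [pow_one]; exact h3)
  have h5 := one_le_sing m
  have h6 : (0 : ℝ) ≤ (y₂ : ℝ) - y₁ := by
    have : (y₁ : ℝ) ≤ y₂ := by exact_mod_cast h1.le
    linarith
  have h7 : ((y₂ : ℝ) - y₁) / Real.log m ^ 2 ≤ sing m * ((y₂ : ℝ) - y₁) / Real.log m ^ 2 := by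
    apply div_le_div_of_nonneg_right _ (by positivity)
    nlinarith
  have h8 := (abs_le.1 h4).1
  have h9 : ((y₂ : ℝ) - y₁) / (2 * Real.log m ^ 2) = (((y₂ : ℝ) - y₁) / Real.log m ^ 2) / 2 := by
    field_simp
  rw [h9]
  linarith

/-- a good `m` is the sum of a prime in the window and another prime -/
theorem exists_pair {m y₁ y₂ : ℕ} (hm : 2 ≤ m) (h : WinP (1 / 2) 1 m) (h1 : y₁ < y₂) (h2 : y₂ ≤ m)
    (h3 : (m : ℝ) / Real.log m ≤ (y₂ : ℝ) - y₁) :
    ∃ p, y₁ < p ∧ p ≤ y₂ ∧ p.Prime ∧ (m - p).Prime := by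
  have h4 := cnt_lower h h1 h2 h3
  have h5 : (0 : ℝ) < ((y₂ : ℝ) - y₁) / (2 * Real.log m ^ 2) := by
    have h6 : (0 : ℝ) < (y₂ : ℝ) - y₁ := by
      have : (y₁ : ℝ) < y₂ := by exact_mod_cast h1
      linarith
    have h7 : 0 < Real.log m := Real.log_pos (by exact_mod_cast hm)
    positivity
  have h6 : 0 < cnt m y₁ y₂ := by
    have : (0 : ℝ) < cnt m y₁ y₂ := lt_of_lt_of_le h5 h4
    exact_mod_cast this
  rw [cnt, card_pos] at h6
  obtain ⟨p, hp⟩ := h6
  rw [mem_filter, mem_Ioc] at hp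
  exact ⟨p, hp.1.1, hp.1.2, hp.2.1, hp.2.2⟩

theorem log_lower {m k : ℕ} {C : ℝ} (h1 : 2 ^ k ≤ m * 2) (hC : 0 < C) (h2 : 2 * C + 2 ≤ k) :
    C ≤ Real.log m := by
  have h0 : (0 : ℝ) < m := by
    have : 0 < 2 ^ k := by positivity
    have : 0 < m := by omega
    exact_mod_cast this
  have h3 : (2 : ℝ) ^ k ≤ m * 2 := by exact_mod_cast h1
  have h4 : Real.log ((2 : ℝ) ^ k) ≤ Real.log (m * 2) := Real.log_le_log (by positivity) h3
  rw [Real.log_pow, Real.log_mul h0.ne' (by norm_num)] at h4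
  have h5 := Real.log_two_gt_d9
  have h6 := Real.log_two_lt_d9
  nlinarith

theorem div_log_le {m k M : ℕ} {δ : ℝ} (hδ : 0 < δ) (h1 : 2 ^ k ≤ m * 2) (hmM : m ≤ M)
    (h2 : 4 / δ + 2 ≤ k) : (m : ℝ) / Real.log m ≤ δ * M / 2 := by
  have h3 : 2 / δ ≤ Real.log m := log_lower h1 (by positivity) (by
    have : 2 * (2 / δ) = 4 / δ := by ring
    rw [this]
    exact h2)
  have h4 : 0 < Real.log m := lt_of_lt_of_le (by positivity) h3
  rw [div_le_iff₀ h4]
  have h5 : (m : ℝ) ≤ M := by exact_mod_cast hmM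
  have h6 : δ * M / 2 * (2 / δ) = M := by field_simp
  calc (m : ℝ) ≤ M := h5
    _ = δ * M / 2 * (2 / δ) := h6.symm
    _ ≤ δ * M / 2 * Real.log m := by
        apply mul_le_mul_of_nonneg_left h3
        positivity

/-- every large odd number is the sum of three almost equal primes -/
theorem three_primes_aux (δ : ℝ) (hδ : 0 < δ) (hδ1 : δ ≤ 1 / 12) : ∃ M₀ : ℕ, ∀ M : ℕ, M₀ ≤ M → Odd M →
    ∃ p q r : ℕ, p.Prime ∧ q.Prime ∧ r.Prime ∧ p + q + r = M ∧
      (1 / 3 - δ) * M ≤ p ∧ (1 / 3 - δ) * M ≤ q ∧ (1 / 3 - δ) * M ≤ r := by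
  classical
  obtain ⟨k₀, hk₀⟩ := card_exc 3
  obtain ⟨K, hK⟩ := exists_nat_gt (8 / δ + 20)
  refine ⟨2 ^ (k₀ + K), fun M hM hodd => ?_⟩
  obtain ⟨k, hk⟩ : ∃ k, k = Nat.log 2 M + 1 := ⟨_, rfl⟩
  have hM0 : M ≠ 0 := by
    have : 0 < 2 ^ (k₀ + K) := by positivity
    omega
  have hk1 : M < 2 ^ k := by
    rw [hk]
    exact Nat.lt_pow_succ_log_self (by norm_num) M
  have hk2 : 2 ^ k ≤ M * 2 := by
    rw [hk, pow_succ]
    exact Nat.mul_le_mul_right 2 (Nat.pow_log_le_self 2 hM0)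
  have hk3 : k₀ + K < k := by
    have := lt_of_le_of_lt hM hk1
    exact (Nat.pow_lt_pow_iff_right (by norm_num)).1 this
  have hkK : 8 / δ + 20 < (k : ℝ) := by
    have : (K : ℝ) < k := by exact_mod_cast (by omega : K < k)
    linarith
  have hdpos : 0 < 8 / δ := by positivity
  have hk20 : 20 < k := by
    have : (20 : ℝ) < k := by linarith
    exact_mod_cast this
  have hkk : k ≤ M := by
    have h1 : k < 2 ^ (k - 1) := by
      have h1 : k ≤ 2 * (k - 1) := by omega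
      have h2 : ∀ j : ℕ, 5 ≤ j → 2 * j < 2 ^ j := by
        intro j hj
        induction j, hj using Nat.le_induction with
        | base => norm_num
        | succ j hj ih => rw [pow_succ]; omega
      exact lt_of_le_of_lt h1 (h2 _ (by omega))
    have h3 : 2 ^ k = 2 ^ (k - 1) * 2 := by
      rw [← pow_succ]
      congr 1
      omega
    omega
  have hMR : 8 / δ + 20 < (M : ℝ) := by
    have : (k : ℝ) ≤ M := by exact_mod_cast hkk
    linarith
  have hδM : 8 < δ * M := by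
    have : 8 / δ < M := by linarith
    rw [div_lt_iff₀ hδ] at this
    linarith
  have hM20 : (20 : ℝ) < M := by linarith
  have hM20' : 20 < M := by exact_mod_cast hM20
  obtain ⟨y₁, hy₁⟩ : ∃ y, y = ⌊(1 / 3 - δ) * (M : ℝ)⌋₊ := ⟨_, rfl⟩
  obtain ⟨y₂, hy₂⟩ : ∃ y, y = M / 3 := ⟨_, rfl⟩
  have hy1a : (y₁ : ℝ) ≤ (1 / 3 - δ) * M := by
    rw [hy₁]
    apply Nat.floor_le
    nlinarith
  have hy1b : (1 / 3 - δ) * M < y₁ + 1 := by
    rw [hy₁]
    exact Nat.lt_floor_add_one _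
  have hy2a : (M : ℝ) / 3 - 1 ≤ y₂ := by
    have : M ≤ 3 * y₂ + 3 := by omega
    have : (M : ℝ) ≤ 3 * y₂ + 3 := by exact_mod_cast this
    linarith
  have hwin : δ * M / 2 ≤ (y₂ : ℝ) - y₁ := by linarith
  have hlt : y₁ < y₂ := by
    have : (y₁ : ℝ) < y₂ := by linarith
    exact_mod_cast this
  have hy1two : 2 ≤ y₁ := by
    have : (2 : ℝ) < y₁ + 1 := by nlinarith
    have : 2 < y₁ + 1 := by exact_mod_cast this
    omega
  have hexc := hk₀ k (by omega)
  have h2k : (2 : ℝ) ^ k ≤ M * 2 := by exact_mod_cast hk2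
  have hk0R : (0 : ℝ) < k := by positivity
  have hexc2 : ((exc k).card : ℝ) ≤ 2 * M / (k : ℝ) ^ 3 := by
    refine hexc.trans ?_
    apply div_le_div_of_nonneg_right _ (by positivity)
    linarith
  have hcond : ∀ m : ℕ, M ≤ 2 * m → m ≤ M → (m : ℝ) / Real.log m ≤ (y₂ : ℝ) - y₁ := by
    intro m hm1 hm2
    refine le_trans (div_log_le (k := k - 1) hδ ?_ hm2 ?_) hwin
    · have h3 : 2 ^ k = 2 ^ (k - 1) * 2 := by
        rw [← pow_succ]
        congr 1
        omega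
      omega
    · rw [Nat.cast_sub (by omega)]
      push_cast
      have : 4 / δ ≤ 8 / δ := by
        apply div_le_div_of_nonneg_right (by norm_num) hδ.le
      linarith
  -- an auxiliary good number
  obtain ⟨m₀, hm₀1, hm₀2, hm₀3⟩ : ∃ m, M ≤ 2 * m ∧ m ≤ M ∧ WinP (1 / 2) 1 m := by
    by_contra hcon
    push Not at hcon
    have h1 : (Icc (M / 4 + 1) (M / 2)).image (fun i => 2 * i) ⊆ exc k := by
      intro m hm
      rw [mem_image] at hm
      obtain ⟨i, hi, rfl⟩ := hm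
      rw [mem_Icc] at hi
      rw [mem_exc]
      refine ⟨by omega, by omega, ⟨i, rfl⟩, hcon _ (by omega) (by omega)⟩
    have h2 := card_le_card h1
    rw [card_image_of_injective _ (fun a b h => by simpa using h), Nat.card_Icc] at h2
    have h3 : M / 5 ≤ (exc k).card := by omega
    have h4 : (M : ℝ) / 10 ≤ (exc k).card := by
      have : M ≤ 10 * (exc k).card := by omega
      have : (M : ℝ) ≤ 10 * (exc k).card := by exact_mod_cast this
      linarith
    have h5 := h4.trans hexc2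
    rw [le_div_iff₀ (by positivity)] at h5
    have h6 : (20 : ℝ) ^ 3 ≤ (k : ℝ) ^ 3 := by
      apply pow_le_pow_left₀ (by norm_num)
      exact_mod_cast hk20.le
    nlinarith
  have hcnt := cnt_lower hm₀3 hlt (by omega) (hcond m₀ hm₀1 hm₀2)
  have hcnt2 : δ * M / (4 * (k : ℝ) ^ 2) ≤ cnt m₀ y₁ y₂ := by
    refine le_trans ?_ hcnt
    have hm₀2k : (m₀ : ℝ) ≤ 2 ^ k := by exact_mod_cast (by omega : m₀ ≤ 2 ^ k)
    have hm₀pos : 1 < m₀ := by omega
    have hlog0 : 0 < Real.log m₀ := Real.log_pos (by exact_mod_cast hm₀pos)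
    have hlog : Real.log m₀ ≤ k := by
      have h1 : Real.log m₀ ≤ Real.log ((2 : ℝ) ^ k) :=
        Real.log_le_log (by exact_mod_cast (by omega : 0 < m₀)) hm₀2k
      rw [Real.log_pow] at h1
      have := Real.log_two_lt_d9
      nlinarith
    have h1 : δ * M / (4 * (k : ℝ) ^ 2) = (δ * M / 2) / (2 * (k : ℝ) ^ 2) := by
      field_simp
      ring
    rw [h1]
    apply div_le_div₀ (by linarith) hwin (by positivity)
    have := pow_le_pow_left₀ hlog0.le hlog 2
    linarith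
  -- the first prime
  obtain ⟨p, hp1, hp2, hp3, hp4⟩ : ∃ p, y₁ < p ∧ p ≤ y₂ ∧ p.Prime ∧ M - p ∉ exc k := by
    by_contra hcon
    push Not at hcon
    have h1 : ((Ioc y₁ y₂).filter (fun p => p.Prime ∧ (m₀ - p).Prime)).image (fun p => M - p) ⊆
        exc k := by
      intro m hm
      rw [mem_image] at hm
      obtain ⟨p, hp, rfl⟩ := hm
      rw [mem_filter, mem_Ioc] at hp
      exact hcon p hp.1.1 hp.1.2 hp.2.1
    have h2 := card_le_card h1
    rw [card_image_of_injOn] at h2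
    · have h3 : (cnt m₀ y₁ y₂ : ℝ) ≤ (exc k).card := by exact_mod_cast h2
      have h4 := (hcnt2.trans h3).trans hexc2
      rw [div_le_div_iff₀ (by positivity) (by positivity)] at h4
      have hMp : (0 : ℝ) < M := by linarith
      have h5 : (M : ℝ) * (k : ℝ) ^ 2 * (δ * k) ≤ (M : ℝ) * (k : ℝ) ^ 2 * 8 := by
        nlinarith
      have h6 : δ * k ≤ 8 := le_of_mul_le_mul_left h5 (by positivity)
      have h7 : 8 < δ * k := by
        have : 8 / δ < k := by linarith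
        rw [div_lt_iff₀ hδ] at this
        linarith
      linarith
    · intro a ha b hb hab
      rw [mem_coe, mem_filter, mem_Ioc] at ha hb
      simp only at hab
      omega
  have hpodd : Odd p := hp3.odd_of_ne_two (by omega)
  have heven : 2 ∣ M - p := by
    obtain ⟨a, ha⟩ := hodd
    obtain ⟨b, hb⟩ := hpodd
    omega
  have hgood : WinP (1 / 2) 1 (M - p) := by
    by_contra h
    exact hp4 (mem_exc.2 ⟨by omega, by omega, heven, h⟩)
  obtain ⟨q, hq1, hq2, hq3, hq4⟩ := exists_pair (m := M - p) (by omega) hgood hlt (by omega)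
    (hcond (M - p) (by omega) (by omega))
  refine ⟨p, q, M - p - q, hp3, hq3, hq4, by omega, ?_, ?_, ?_⟩
  · have : ((y₁ + 1 : ℕ) : ℝ) ≤ p := by exact_mod_cast hp1
    push_cast at this
    linarith
  · have : ((y₁ + 1 : ℕ) : ℝ) ≤ q := by exact_mod_cast hq1
    push_cast at this
    linarith
  · have h1 : M ≤ 3 * (M - p - q) := by omega
    have h2 : (M : ℝ) ≤ 3 * ((M - p - q : ℕ) : ℝ) := by exact_mod_cast h1
    nlinarith

end Pool.Agent.T6.H18.HH
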