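import Mathlib
import Pool.Agent.T6.H18.HH.Vino

/-!
# Almost all even numbers are sums of two almost equal primes
-/

set_option autoImplicit false

namespace Pool.Agent.T6.H18.HH

open Finset hiding val
open Pool.Agent.W93.PG

/-- the sum of two almost equal primes -/
def TwoP (δ : ℝ) (m : ℕ) : Prop :=
  ∃ p q : ℕ, p.Prime ∧ q.Prime ∧ p + q = m ∧ (1 / 2 - δ) * m ≤ p ∧ (1 / 2 - δ) * m ≤ q

theorem twoP_of_winP (δ : ℝ) (hδ : 0 < δ) (hδ1 : δ ≤ 1 / 4) :
    ∃ C : ℕ, ∀ m : ℕ, C ≤ m → WinP (1 / 2) 1 m → TwoP δ m := by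
  obtain ⟨C, hC⟩ := exists_nat_gt (Real.exp (2 / δ) + 4 / δ + 4)
  refine ⟨C, fun m hm hW => ?_⟩
  have hmR : Real.exp (2 / δ) + 4 / δ + 4 < m := by
    have : (C : ℝ) ≤ m := by exact_mod_cast hm
    linarith
  have he : 0 < Real.exp (2 / δ) := Real.exp_pos _
  have hdpos : 0 < 4 / δ := by positivity
  have hm4 : (4 : ℝ) < m := by linarith
  have hm4' : 4 < m := by exact_mod_cast hm4
  have hδm : 4 < δ * m := by
    have : 4 / δ < m := by linarith
    rw [div_lt_iff₀ hδ] at this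
    linarith
  obtain ⟨y₁, hy₁⟩ : ∃ y, y = ⌊(1 / 2 - δ) * (m : ℝ)⌋₊ := ⟨_, rfl⟩
  obtain ⟨y₂, hy₂⟩ : ∃ y, y = m / 2 := ⟨_, rfl⟩
  have hy1a : (y₁ : ℝ) ≤ (1 / 2 - δ) * m := by
    rw [hy₁]
    apply Nat.floor_le
    nlinarith
  have hy1b : (1 / 2 - δ) * m < y₁ + 1 := by
    rw [hy₁]
    exact Nat.lt_floor_add_one _
  have hy2a : (m : ℝ) / 2 - 1 ≤ y₂ := by
    have : m ≤ 2 * y₂ + 2 := by omega
    have : (m : ℝ) ≤ 2 * y₂ + 2 := by exact_mod_cast this
    linarith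
  have hwin : δ * m / 2 ≤ (y₂ : ℝ) - y₁ := by linarith
  have hlt : y₁ < y₂ := by
    have : (y₁ : ℝ) < y₂ := by linarith
    exact_mod_cast this
  have hlog : 2 / δ ≤ Real.log m := by
    rw [Real.le_log_iff_exp_le (by linarith)]
    linarith
  have hlog0 : 0 < Real.log m := lt_of_lt_of_le (by positivity) hlog
  have hcond : (m : ℝ) / Real.log m ≤ (y₂ : ℝ) - y₁ := by
    refine le_trans ?_ hwin
    rw [div_le_iff₀ hlog0]
    have h6 : δ * m / 2 * (2 / δ) = m := by field_simp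
    calc (m : ℝ) = δ * m / 2 * (2 / δ) := h6.symm
      _ ≤ δ * m / 2 * Real.log m := by
          apply mul_le_mul_of_nonneg_left hlog
          positivity
  obtain ⟨p, hp1, hp2, hp3, hp4⟩ := exists_pair (by omega) hW hlt (by omega) hcond
  refine ⟨p, m - p, hp3, hp4, by omega, ?_, ?_⟩
  · have : ((y₁ + 1 : ℕ) : ℝ) ≤ p := by exact_mod_cast hp1
    push_cast at this
    linarith
  · have h1 : m ≤ 2 * (m - p) := by omega
    have h2 : (m : ℝ) ≤ 2 * ((m - p : ℕ) : ℝ) := by exact_mod_cast h1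
    nlinarith

/-- the exceptional even numbers are rare -/
theorem two_primes (δ : ℝ) (hδ : 0 < δ) (hδ1 : δ ≤ 1 / 4) (U : ℕ) (C₀ : ℝ) : ∃ X₀ : ℕ, ∀ X : ℕ,
    X₀ ≤ X → ∀ S : Finset ℕ, (∀ m ∈ S, m ≤ X ∧ 0 < m ∧ 2 ∣ m ∧ ¬ TwoP δ m) →
    (S.card : ℝ) + C₀ ≤ X / Real.log X ^ U := by
  classical
  obtain ⟨C, hC⟩ := twoP_of_winP δ hδ hδ1
  obtain ⟨k₀, hk₀⟩ := card_exc (U + 1)
  have hlim : ∀ᶠ X : ℝ in Filter.atTop, (|C₀| + C) * Real.log X ^ (U + 1) ≤ X := by
    have h1 := Real.isLittleO_pow_log_id_atTop (n := U + 1)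
    have h2 := h1.bound (c := 1 / (|C₀| + C + 1)) (by positivity)
    filter_upwards [h2, Filter.eventually_ge_atTop 1] with X hX hX1
    rw [id, Real.norm_of_nonneg (pow_nonneg (Real.log_nonneg hX1) _),
      Real.norm_of_nonneg (by linarith)] at hX
    have h3 : 0 < |C₀| + C + 1 := by positivity
    rw [div_mul_eq_mul_div, one_mul, le_div_iff₀ h3] at hX
    have h4 : 0 ≤ Real.log X ^ (U + 1) := pow_nonneg (Real.log_nonneg hX1) _
    nlinarith
  have hlim2 : ∀ᶠ X : ℕ in Filter.atTop, (|C₀| + C) * Real.log X ^ (U + 1) ≤ X :=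
    tendsto_natCast_atTop_atTop.eventually hlim
  have hlim3 : ∀ᶠ X : ℕ in Filter.atTop, (3 : ℝ) ≤ Real.log X :=
    (Real.tendsto_log_atTop.comp tendsto_natCast_atTop_atTop).eventually_ge_atTop 3
  obtain ⟨X₁, hX₁⟩ := Filter.eventually_atTop.1 (hlim2.and hlim3)
  refine ⟨X₁ + 2 ^ k₀ + 2, fun X hX S hS => ?_⟩
  have h2k := Nat.two_pow_pos k₀
  obtain ⟨h1, h2⟩ := hX₁ X (by omega)
  obtain ⟨k, hk⟩ : ∃ k, k = Nat.log 2 X + 1 := ⟨_, rfl⟩
  have hX0 : X ≠ 0 := by omega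
  have hk1 : X < 2 ^ k := by
    rw [hk]
    exact Nat.lt_pow_succ_log_self (by norm_num) X
  have hk2 : 2 ^ k ≤ X * 2 := by
    rw [hk, pow_succ]
    exact Nat.mul_le_mul_right 2 (Nat.pow_log_le_self 2 hX0)
  have hk3 : k₀ ≤ k := by
    have h3 : 2 ^ k₀ ≤ 2 ^ k := by omega
    exact (Nat.pow_le_pow_iff_right (by norm_num)).1 h3
  have hsub : S ⊆ range C ∪ exc k := by
    intro m hm
    obtain ⟨a, b, c, e⟩ := hS m hm
    rw [mem_union, mem_range, mem_exc]
    by_contra hcon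
    push Not at hcon
    obtain ⟨h3, h4⟩ := hcon
    exact e (hC m h3 (h4 (by omega) b c))
  have hcard : S.card ≤ C + (exc k).card := by
    refine (card_le_card hsub).trans ((card_union_le _ _).trans ?_)
    rw [card_range]
  have hcardR : (S.card : ℝ) ≤ C + (exc k).card := by exact_mod_cast hcard
  have hL0 : (0 : ℝ) < Real.log X := by linarith
  have hexc : ((exc k).card : ℝ) ≤ 2 * X / Real.log X ^ (U + 1) := by
    refine (hk₀ k hk3).trans ?_
    have h3 : Real.log X ≤ k := by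
      have h4 : Real.log X ≤ Real.log ((2 : ℝ) ^ k) := by
        apply Real.log_le_log (by exact_mod_cast Nat.pos_of_ne_zero hX0)
        exact_mod_cast hk1.le
      rw [Real.log_pow] at h4
      have := Real.log_two_lt_d9
      have h5 : (0 : ℝ) ≤ k := by positivity
      nlinarith
    have h4 : (2 : ℝ) ^ k ≤ X * 2 := by exact_mod_cast hk2
    apply div_le_div₀ (by positivity) (by linarith) (by positivity)
    exact pow_le_pow_left₀ hL0.le h3 _
  have h3 : (C : ℝ) + C₀ ≤ X / Real.log X ^ (U + 1) := by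
    rw [le_div_iff₀ (by positivity)]
    refine le_trans ?_ h1
    apply mul_le_mul_of_nonneg_right _ (by positivity)
    have := le_abs_self C₀
    linarith
  have h4 : (S.card : ℝ) + C₀ ≤ 3 * X / Real.log X ^ (U + 1) := by
    have h5 : 3 * (X : ℝ) / Real.log X ^ (U + 1) = 2 * X / Real.log X ^ (U + 1) +
        X / Real.log X ^ (U + 1) := by ring
    rw [h5]
    linarith
  refine h4.trans ?_
  rw [pow_succ, div_le_div_iff₀ (by positivity) (by positivity)]
  have hXp : (0 : ℝ) ≤ X := by positivity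
  have h6 : (0 : ℝ) ≤ (X : ℝ) * Real.log X ^ U := by positivity
  nlinarith

end Pool.Agent.T6.H18.HH
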