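import Mathlib
import Pool.Agent.T6.H18.HH.PrimeGood
import Pool.Agent.T6.H18.HH.Two

/-!
# The rectangular module is not in the kernel of the Hermite-Hadamard-Howe map: even degrees
-/

set_option autoImplicit false

namespace Pool.Agent.T6.H18.HH

open Finset

theorem good_sum {n : ℕ} (s : List ℕ) (hs : ∀ p ∈ s, p.Prime ∧ n < p) (hne : s ≠ []) :
    Good n (s.map (fun p => p - 1)).sum := by
  induction s with
  | nil => exact absurd rfl hne
  | cons p s ih =>
    have hp := hs p (List.mem_cons_self)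
    have : Fact p.Prime := ⟨hp.1⟩
    have h1 : Good n (p - 1) := good_prime p n (by omega)
    rw [List.map_cons, List.sum_cons]
    by_cases h : s = []
    · subst h
      simpa using h1
    · exact h1.add (ih (fun q hq => hs q (List.mem_cons_of_mem _ hq)) h)

/-- sums of numbers `p - 1` -/
theorem part0 (m d n : ℕ) (hnm : n ≤ m) (s : List ℕ) (hs : ∀ p ∈ s, p.Prime ∧ n < p)
    (hne : s ≠ []) (hd : d = (s.map (fun p => p - 1)).sum) (hev : Even d) :
    ∃ t ∈ isotypic m d n, hhh t ≠ 0 := by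
  subst hd
  exact exists_of_good hev hnm (good_sum s hs hne)

theorem part1 (m d n : ℕ) (hn : n ≤ 4) (hnm : n ≤ m) (hnd : n ≤ d) (hd0 : 1 ≤ d) (hd : Even d) :
    ∃ t ∈ isotypic m d n, hhh t ≠ 0 := by
  obtain ⟨k, hk⟩ := hd
  by_cases h2 : d = 2
  · refine part0 m d n hnm [3] ?_ (by simp) (by simp [h2]) ⟨k, hk⟩
    intro p hp
    rw [List.mem_singleton] at hp
    subst hp
    exact ⟨by norm_num, by omega⟩
  · have h4 : ∃ a b : ℕ, d = 4 * a + 6 * b ∧ 0 < a + b := by
      rcases Nat.even_or_odd k with ⟨j, hj⟩ | ⟨j, hj⟩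
      · exact ⟨j, 0, by omega, by omega⟩
      · exact ⟨j - 1, 1, by omega, by omega⟩
    obtain ⟨a, b, hab, hpos⟩ := h4
    refine part0 m d n hnm (List.replicate a 5 ++ List.replicate b 7) ?_ ?_ ?_ ⟨k, hk⟩
    · intro p hp
      rw [List.mem_append, List.mem_replicate, List.mem_replicate] at hp
      rcases hp with ⟨-, hp⟩ | ⟨-, hp⟩
      · subst hp
        exact ⟨by norm_num, by omega⟩
      · subst hp
        exact ⟨by norm_num, by omega⟩
    · intro h
      have := congrArg List.length h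
      simp at this
      omega
    · rw [List.map_append, List.sum_append, List.map_replicate, List.map_replicate,
        List.sum_replicate, List.sum_replicate, hab, smul_eq_mul, smul_eq_mul]
      omega

theorem part2 (ε : ℝ) (hε : 0 < ε) : ∃ N : ℕ, ∀ m d n : ℕ, N ≤ d → Even d → (3 + ε) * n ≤ d →
    n ≤ m → ∃ t ∈ isotypic m d n, hhh t ≠ 0 := by
  obtain ⟨δ, hδ, hδ1, hδ2⟩ : ∃ δ : ℝ, 0 < δ ∧ δ ≤ 1 / 12 ∧ 1 / (3 + ε) + δ ≤ 1 / 3 - δ := by
    refine ⟨min (1 / 12) ((1 / 3 - 1 / (3 + ε)) / 2), lt_min (by norm_num) ?_, min_le_left _ _, ?_⟩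
    · have : 1 / (3 + ε) < 1 / 3 := by
        apply one_div_lt_one_div_of_lt (by norm_num)
        linarith
      linarith
    · have := min_le_right (1 / 12 : ℝ) ((1 / 3 - 1 / (3 + ε)) / 2)
      linarith
  obtain ⟨M₀, hM₀⟩ := three_primes_aux δ hδ hδ1
  obtain ⟨K, hK⟩ := exists_nat_gt (1 / δ)
  refine ⟨M₀ + K, fun m d n hd hev hn hnm => ?_⟩
  obtain ⟨p, q, r, hp, hq, hr, hsum, h1, h2, h3⟩ := hM₀ (d + 3) (by omega) (by
    obtain ⟨k, hk⟩ := hev
    exact ⟨k + 1, by omega⟩)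
  have hdK : 1 < δ * d := by
    have : (K : ℝ) ≤ d := by exact_mod_cast (by omega : K ≤ d)
    have h4 : 1 / δ < d := by linarith
    rw [div_lt_iff₀ hδ] at h4
    linarith
  have hnd : (n : ℝ) + 1 < (1 / 3 - δ) * ((d + 3 : ℕ) : ℝ) := by
    push_cast
    have h4 : (n : ℝ) ≤ 1 / (3 + ε) * d := by
      rw [div_mul_eq_mul_div, one_mul, le_div_iff₀ (by linarith)]
      linarith
    have hd0 : (0 : ℝ) ≤ d := by positivity
    have h5 : (1 / (3 + ε) + δ) * d ≤ (1 / 3 - δ) * d := mul_le_mul_of_nonneg_right hδ2 hd0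
    nlinarith
  have hlt : ∀ x : ℕ, (1 / 3 - δ) * ((d + 3 : ℕ) : ℝ) ≤ x → n < x := by
    intro x hx
    have : (n : ℝ) < x := by linarith
    exact_mod_cast this
  have := hp.two_le
  have := hq.two_le
  have := hr.two_le
  refine part0 m d n hnm [p, q, r] ?_ (by simp) ?_ hev
  · intro x hx
    simp only [List.mem_cons, List.not_mem_nil, or_false] at hx
    rcases hx with rfl | rfl | rfl
    · exact ⟨hp, hlt _ h1⟩
    · exact ⟨hq, hlt _ h2⟩
    · exact ⟨hr, hlt _ h3⟩
  · simp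
    omega

theorem part3 (ε : ℝ) (hε : 0 < ε) (U : ℕ) : ∃ X₀ : ℕ, ∀ X : ℕ, X₀ ≤ X → ∀ S : Finset ℕ,
    (∀ d ∈ S, d ≤ X ∧ Even d ∧ ∃ m n : ℕ, (2 + ε) * n ≤ d ∧ n ≤ m ∧
      ∀ t ∈ isotypic m d n, hhh t = 0) →
    (S.card : ℝ) ≤ X / Real.log X ^ U := by
  classical
  obtain ⟨δ, hδ, hδ1, hδ2⟩ : ∃ δ : ℝ, 0 < δ ∧ δ ≤ 1 / 4 ∧ 1 / (2 + ε) + δ ≤ 1 / 2 - δ := by
    refine ⟨min (1 / 4) ((1 / 2 - 1 / (2 + ε)) / 2), lt_min (by norm_num) ?_, min_le_left _ _, ?_⟩
    · have : 1 / (2 + ε) < 1 / 2 := by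
        apply one_div_lt_one_div_of_lt (by norm_num)
        linarith
      linarith
    · have := min_le_right (1 / 4 : ℝ) ((1 / 2 - 1 / (2 + ε)) / 2)
      linarith
  obtain ⟨K, hK⟩ := exists_nat_gt (1 / δ)
  obtain ⟨X₀, hX₀⟩ := two_primes δ hδ hδ1 (U + 1) K
  have hlim3 : ∀ᶠ X : ℕ in Filter.atTop, (2 : ℝ) ≤ Real.log X :=
    (Real.tendsto_log_atTop.comp tendsto_natCast_atTop_atTop).eventually_ge_atTop 2
  obtain ⟨X₁, hX₁⟩ := Filter.eventually_atTop.1 hlim3
  refine ⟨X₀ + X₁ + 2, fun X hX S hS => ?_⟩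
  have hlog := hX₁ X (by omega)
  -- the shifted set
  have hcard : (((S.filter fun d => K ≤ d).image (fun d => d + 2)).card : ℝ) + K ≤
      ((X + 2 : ℕ) : ℝ) / Real.log ((X + 2 : ℕ) : ℝ) ^ (U + 1) := by
    apply hX₀ (X + 2) (by omega)
    intro m' hm'
    rw [mem_image] at hm'
    obtain ⟨d, hd, rfl⟩ := hm'
    rw [mem_filter] at hd
    obtain ⟨hdS, hKd⟩ := hd
    obtain ⟨hdX, hev, m, n, hn, hnm, hbad⟩ := hS d hdS
    refine ⟨by omega, by omega, by obtain ⟨k, hk⟩ := hev; exact ⟨k + 1, by omega⟩, ?_⟩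
    rintro ⟨p, q, hp, hq, hpq, h1, h2⟩
    have hdK : 1 < δ * d := by
      have : (K : ℝ) ≤ d := by exact_mod_cast hKd
      have h4 : 1 / δ < d := by linarith
      rw [div_lt_iff₀ hδ] at h4
      linarith
    have hnd : (n : ℝ) + 1 < (1 / 2 - δ) * ((d + 2 : ℕ) : ℝ) := by
      push_cast
      have h4 : (n : ℝ) ≤ 1 / (2 + ε) * d := by
        rw [div_mul_eq_mul_div, one_mul, le_div_iff₀ (by linarith)]
        linarith
      have hd0 : (0 : ℝ) ≤ d := by positivity
      have h5 : (1 / (2 + ε) + δ) * d ≤ (1 / 2 - δ) * d := mul_le_mul_of_nonneg_right hδ2 hd0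
      nlinarith
    have hlt : ∀ x : ℕ, (1 / 2 - δ) * ((d + 2 : ℕ) : ℝ) ≤ x → n < x := by
      intro x hx
      have : (n : ℝ) < x := by linarith
      exact_mod_cast this
    have := hp.two_le
    have := hq.two_le
    obtain ⟨t, ht, ht2⟩ := part0 m d n hnm [p, q] (by
      intro x hx
      simp only [List.mem_cons, List.not_mem_nil, or_false] at hx
      rcases hx with rfl | rfl
      · exact ⟨hp, hlt _ h1⟩
      · exact ⟨hq, hlt _ h2⟩) (by simp) (by simp; omega) hev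
    exact ht2 (hbad t ht)
  have hS2 : S.card ≤ ((S.filter fun d => K ≤ d).image (fun d => d + 2)).card + K := by
    rw [card_image_of_injective _ (fun a b h => by simpa using h)]
    have h1 : S ⊆ (S.filter fun d => K ≤ d) ∪ range K := by
      intro d hd
      rw [mem_union, mem_filter, mem_range]
      by_cases h : K ≤ d
      · exact Or.inl ⟨hd, h⟩
      · exact Or.inr (by omega)
    refine (card_le_card h1).trans ((card_union_le _ _).trans ?_)
    rw [card_range]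
  have hS3 : (S.card : ℝ) ≤ (((S.filter fun d => K ≤ d).image (fun d => d + 2)).card : ℝ) + K := by
    exact_mod_cast hS2
  refine hS3.trans (hcard.trans ?_)
  have hX2 : (2 : ℝ) ≤ X := by exact_mod_cast (by omega : 2 ≤ X)
  have h1 : Real.log X ≤ Real.log ((X + 2 : ℕ) : ℝ) := by
    apply Real.log_le_log (by linarith)
    push_cast
    linarith
  have hL0 : 0 < Real.log X := by linarith
  calc ((X + 2 : ℕ) : ℝ) / Real.log ((X + 2 : ℕ) : ℝ) ^ (U + 1) ≤
        (2 * X) / Real.log X ^ (U + 1) := by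
        apply div_le_div₀ (by positivity) _ (by positivity) (pow_le_pow_left₀ hL0.le h1 _)
        push_cast
        linarith
    _ ≤ X / Real.log X ^ U := by
        rw [pow_succ, div_le_div_iff₀ (by positivity) (by positivity)]
        have h6 : (0 : ℝ) ≤ (X : ℝ) * Real.log X ^ U := by positivity
        nlinarith

end Pool.Agent.T6.H18.HH
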