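import Mathlib
import Pool.Agent.T6.H18.HH.Transfer

/-!
# The module `S_{(7^4)} V` occurs in `S^7(S^4 V)`
-/

set_option autoImplicit false

namespace Pool.Agent.T6.H18.HH

open Finset

/-- the points of the blocks (the complements of the lines of the Fano plane) -/
def fP : Fin 7 × Fin 4 → Fin 7 := fun x =>
  ![![2, 4, 5, 6], ![0, 3, 5, 6], ![0, 1, 4, 6], ![0, 1, 2, 5], ![1, 2, 3, 6], ![0, 2, 3, 4],
    ![1, 3, 4, 5]] x.1 x.2

/-- the number of the block among the blocks containing the point -/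
def fQ : Fin 7 × Fin 4 → Fin 4 := fun x =>
  ![![0, 0, 0, 0], ![0, 0, 1, 1], ![1, 0, 1, 2], ![2, 1, 1, 2], ![2, 2, 1, 3], ![3, 3, 2, 2],
    ![3, 3, 3, 3]] x.1 x.2

theorem fPQ_bij : Function.Bijective (fun x => (fP x, fQ x)) := by
  have h : Function.Injective (fun x => (fP x, fQ x)) := by decide +kernel
  exact h.bijective_of_finite

/-- the permutation of the `28` positions -/
noncomputable def fe : Fin 7 × Fin 4 ≃ Fin 7 × Fin 4 := Equiv.ofBijective _ fPQ_bij

theorem fe_fst (x : Fin 7 × Fin 4) : (fe x).1 = fP x := rfl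

/-- each pair of points is in exactly two blocks -/
theorem f_pairs : ∀ b ∈ ((univ : Finset (Fin 7 × Fin 4 × Fin 4)).filter fun x => x.2.1 < x.2.2).image
    (fun x => (fP (x.1, x.2.1), fP (x.1, x.2.2))),
    (((univ : Finset (Fin 7 × Fin 4 × Fin 4)).filter fun x => x.2.1 < x.2.2).filter
      fun x => (fP (x.1, x.2.1), fP (x.1, x.2.2)) = b).card = 2 ∧ b.1 ≠ b.2 := by
  decide +kernel

theorem f_pos (s : Fin 7 → ℝ) (hs : Function.Injective s) :
    0 < ∏ i : Fin 7, ∏ j : Fin 4, ∏ j' ∈ Ioi j, (s (fP (i, j')) - s (fP (i, j))) := by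
  classical
  have h1 : ∏ i : Fin 7, ∏ j : Fin 4, ∏ j' ∈ Ioi j, (s (fP (i, j')) - s (fP (i, j))) =
      ∏ x ∈ (univ : Finset (Fin 7 × Fin 4 × Fin 4)).filter (fun x => x.2.1 < x.2.2),
        (fun b : Fin 7 × Fin 7 => s b.2 - s b.1) (fP (x.1, x.2.1), fP (x.1, x.2.2)) := by
    rw [prod_filter, Fintype.prod_prod_type]
    refine prod_congr rfl fun i _ => ?_
    rw [Fintype.prod_prod_type]
    refine prod_congr rfl fun j _ => ?_
    rw [← prod_filter]
    refine prod_congr ?_ fun _ _ => rfl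
    ext j'
    simp
  rw [h1, Finset.prod_comp (s := (univ : Finset (Fin 7 × Fin 4 × Fin 4)).filter
    (fun x => x.2.1 < x.2.2)) (fun b : Fin 7 × Fin 7 => s b.2 - s b.1)
    (fun x => (fP (x.1, x.2.1), fP (x.1, x.2.2)))]
  refine prod_pos fun b hb => ?_
  obtain ⟨h2, h3⟩ := f_pairs b hb
  rw [h2]
  have h4 : s b.2 - s b.1 ≠ 0 := by
    rw [sub_ne_zero]
    exact fun h => h3 (hs h).symm
  positivity

/-- evaluation at the tensor `u_1^l ... u_k^l` -/
noncomputable def ev {m k l : ℕ} (u : Fin k → Fin m → ℂ) (t : Tensor m (Fin k × Fin l)) : ℂ :=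
  ∑ b : Fin k × Fin l → Fin m, (∏ x, u x.1 (b x)) * t b

theorem ev_symIn {m k l : ℕ} (u : Fin k → Fin m → ℂ) (t : Tensor m (Fin k × Fin l)) :
    ev u (symIn t) = ev u t := by
  classical
  have h1 : ∀ τ : Fin k → Equiv.Perm (Fin l),
      ∑ b : Fin k × Fin l → Fin m, (∏ x, u x.1 (b x)) * t (fun x => b (x.1, τ x.1 x.2)) = ev u t := by
    intro τ
    rw [ev]
    refine Fintype.sum_equiv (Equiv.arrowCongr (eIn τ) (Equiv.refl _)).symm _ _ ?_
    intro b
    have h : ∀ x, ((Equiv.arrowCongr (eIn τ) (Equiv.refl (Fin m))).symm b) x = b (x.1, τ x.1 x.2) :=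
      fun x => rfl
    simp only [h]
    congr 1
    exact (Fintype.prod_equiv (eIn τ) _ _ (fun x => rfl)).symm
  rw [ev]
  simp only [symIn]
  have h2 : ∀ b : Fin k × Fin l → Fin m, (∏ x, u x.1 (b x)) * (((l.factorial : ℂ) ^ k)⁻¹ *
      ∑ τ : Fin k → Equiv.Perm (Fin l), t (fun x => b (x.1, τ x.1 x.2))) =
      ((l.factorial : ℂ) ^ k)⁻¹ * ∑ τ : Fin k → Equiv.Perm (Fin l),
        (∏ x, u x.1 (b x)) * t (fun x => b (x.1, τ x.1 x.2)) := by
    intro b
    rw [← mul_sum]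
    ring
  simp only [h2]
  rw [← mul_sum, sum_comm]
  simp only [h1]
  rw [sum_const, card_univ, Fintype.card_fun, Fintype.card_perm, Fintype.card_fin,
    Fintype.card_fin, nsmul_eq_mul, ← mul_assoc]
  push_cast
  rw [inv_mul_cancel₀ (pow_ne_zero _ (fact_ne l)), one_mul]

theorem ev_symOut {m k l : ℕ} (u : Fin k → Fin m → ℂ) (t : Tensor m (Fin k × Fin l)) :
    ev u (symOut t) = (k.factorial : ℂ)⁻¹ * ∑ σ : Equiv.Perm (Fin k), ev (fun i => u (σ i)) t := by
  classical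
  have h1 : ∀ σ : Equiv.Perm (Fin k),
      ∑ b : Fin k × Fin l → Fin m, (∏ x, u x.1 (b x)) * t (fun x => b (σ x.1, x.2)) =
        ev (fun i => u (σ i)) t := by
    intro σ
    rw [ev]
    refine Fintype.sum_equiv (Equiv.arrowCongr (eOut σ) (Equiv.refl _)).symm _ _ ?_
    intro b
    have h : ∀ x, ((Equiv.arrowCongr (eOut σ) (Equiv.refl (Fin m))).symm b) x = b (σ x.1, x.2) :=
      fun x => rfl
    simp only [h]
    congr 1
    exact (Fintype.prod_equiv (eOut σ) _ _ (fun x => rfl)).symm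
  rw [ev]
  simp only [symOut]
  have h2 : ∀ b : Fin k × Fin l → Fin m, (∏ x, u x.1 (b x)) * ((k.factorial : ℂ)⁻¹ *
      ∑ σ : Equiv.Perm (Fin k), t (fun x => b (σ x.1, x.2))) =
      (k.factorial : ℂ)⁻¹ * ∑ σ : Equiv.Perm (Fin k),
        (∏ x, u x.1 (b x)) * t (fun x => b (σ x.1, x.2)) := by
    intro b
    rw [← mul_sum]
    ring
  simp only [h2]
  rw [← mul_sum, sum_comm]
  simp only [h1]

/-- contraction of a wedge product with vectors -/
theorem det_contract {m n : ℕ} (U : Fin n → Fin m → ℂ) (v : Fin n → Fin m → ℂ) :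
    ∑ c : Fin n → Fin m, (∏ j, U j (c j)) * Matrix.det (Matrix.of fun j k => v k (c j)) =
      Matrix.det (Matrix.of fun j k => ∑ c, U j c * v k c) := by
  classical
  have h1 : (Matrix.of fun j k => ∑ c, U j c * v k c : Matrix (Fin n) (Fin n) ℂ) =
      Matrix.of fun j => ∑ c, U j c • (fun k => v k c) := by
    ext j k
    simp [Finset.sum_apply]
  rw [h1]
  change _ = (Matrix.detRowAlternating (n := Fin n) (R := ℂ)).toMultilinearMap
    (fun j => ∑ c, U j c • (fun k => v k c))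
  rw [MultilinearMap.map_sum]
  refine sum_congr rfl fun c _ => ?_
  rw [MultilinearMap.map_smul_univ, smul_eq_mul]
  rfl

theorem ev_mv_wedge {m d n : ℕ} (u : Fin d → Fin m → ℂ) (e : Fin d × Fin n ≃ Fin d × Fin n)
    (v : Fin n → Fin m → ℂ) : ev u (mv e (wedgePow d v)) =
      ∏ i : Fin d, Matrix.det (Matrix.of fun j k => ∑ c, u (e (i, j)).1 c * v k c) := by
  classical
  simp only [← det_contract]
  rw [Finset.prod_univ_sum]
  simp only [Fintype.piFinset_univ]
  rw [ev]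
  refine Fintype.sum_equiv ((Equiv.arrowCongr e (Equiv.refl _)).symm.trans (Equiv.curry _ _ _))
    _ _ ?_
  intro b
  rw [prod_mul_distrib]
  congr 1
  rw [← Fintype.prod_prod_type']
  exact (Fintype.prod_equiv e _ _ (fun x => rfl)).symm

theorem fano_ne {m : ℕ} (hm : 4 ≤ m) :
    sym (mv fe (wedgePow 7 (fun k : Fin 4 => Pi.single (Fin.castLE hm k) 1) :
      Tensor m (Fin 7 × Fin 4))) ≠ 0 := by
  classical
  intro h0
  have h1 := congrArg (ev (fun (p : Fin 7) (c : Fin m) => ((p : ℕ) : ℂ) ^ (c : ℕ))) h0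
  have h2 : ev (l := 4) (fun (p : Fin 7) (c : Fin m) => ((p : ℕ) : ℂ) ^ (c : ℕ)) 0 = 0 := by
    simp [ev]
  rw [h2, sym, ev_symOut] at h1
  simp only [ev_symIn, ev_mv_wedge] at h1
  rcases mul_eq_zero.1 h1 with h3 | h3
  · exact absurd h3 (inv_ne_zero (fact_ne 7))
  · have h4 : ∀ σ : Equiv.Perm (Fin 7), ∏ i : Fin 7, Matrix.det (Matrix.of fun (j k : Fin 4) =>
        ∑ c : Fin m, ((σ (fe (i, j)).1 : ℕ) : ℂ) ^ (c : ℕ) *
          (Pi.single (Fin.castLE hm k) 1 : Fin m → ℂ) c) =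
        ((∏ i : Fin 7, ∏ j : Fin 4, ∏ j' ∈ Ioi j, (((σ (fP (i, j')) : ℕ) : ℝ) -
          ((σ (fP (i, j)) : ℕ) : ℝ)) : ℝ) : ℂ) := by
      intro σ
      push_cast
      refine prod_congr rfl fun i _ => ?_
      have h5 : (Matrix.of fun (j k : Fin 4) =>
          ∑ c : Fin m, ((σ (fe (i, j)).1 : ℕ) : ℂ) ^ (c : ℕ) *
          (Pi.single (Fin.castLE hm k) 1 : Fin m → ℂ) c) =
          Matrix.vandermonde (fun j => ((σ (fP (i, j)) : ℕ) : ℂ)) := by
        ext j k
        simp [Matrix.vandermonde_apply, fe_fst, Pi.single_apply]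
      rw [h5, Matrix.det_vandermonde]
    simp only [h4] at h3
    rw [← Complex.ofReal_sum, Complex.ofReal_eq_zero] at h3
    have h5 : 0 < ∑ σ : Equiv.Perm (Fin 7), ∏ i : Fin 7, ∏ j : Fin 4, ∏ j' ∈ Ioi j,
        (((σ (fP (i, j')) : ℕ) : ℝ) - ((σ (fP (i, j)) : ℕ) : ℝ)) := by
      refine sum_pos (fun σ _ => ?_) ⟨1, mem_univ _⟩
      exact f_pos (fun p => ((σ p : ℕ) : ℝ)) (fun a b h => by
        simp only [Nat.cast_inj, Fin.val_inj] at h
        exact σ.injective h)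
    exact h5.ne' h3

theorem sym_add {m k l : ℕ} (s t : Tensor m (Fin k × Fin l)) : sym (s + t) = sym s + sym t := by
  ext a
  simp only [sym, symOut, symIn, Pi.add_apply, mul_add, sum_add_distrib]

theorem sym_smul {m k l : ℕ} (c : ℂ) (t : Tensor m (Fin k × Fin l)) : sym (c • t) = c • sym t := by
  simp only [sym, symIn_eq, symOut_eq, mv_smul, ← smul_sum]
  simp only [smul_comm c]

/-- `S_{(7^4)} V` occurs in `S^7(S^4 V)` -/
theorem isotypic_ne_bot {m : ℕ} (hm : 4 ≤ m) : isotypic m 7 4 ≠ ⊥ := by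
  classical
  intro hbot
  have h1 : sym (mv fe (wedgePow 7 (fun k : Fin 4 => Pi.single (Fin.castLE hm k) 1) :
      Tensor m (Fin 7 × Fin 4))) ∈ isotypic m 7 4 := by
    refine Submodule.subset_span ⟨fun w => sym (mv fe w), ⟨?_, ?_, ?_⟩, ?_, _,
      Submodule.subset_span ⟨_, rfl⟩, rfl⟩
    · intro w _ w' _
      have h2 : mv fe (w + w') = mv fe w + mv fe w' := rfl
      simp only [h2, sym_add]
    · intro c w _
      simp only [mv_smul, sym_smul]
    · intro g w _
      simp only [sym, act_symOut, act_symIn, act_mv]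
    · intro w _
      exact sym_mem _
  rw [hbot, Submodule.mem_bot] at h1
  exact fano_ne hm h1

end Pool.Agent.T6.H18.HH
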