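import Mathlib
import Pool.Agent.T6.H18.HH.Transfer

/-!
# The map vanishes on the rectangular component when the degree is odd
-/

set_option autoImplicit false

namespace Pool.Agent.T6.H18.HH

open Finset

theorem sumExtend_inl {ι K V : Type} [DivisionRing K] [AddCommGroup V] [Module K V] {v : ι → V}
    (hs : LinearIndependent K v) (i : ι) : Module.Basis.sumExtend hs (Sum.inl i) = v i := by
  classical
  unfold Module.Basis.sumExtend
  simp only [Module.Basis.reindex_apply, Module.Basis.extend_apply_self]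
  rfl

/-- a linearly independent family is the image of the first unit vectors under an invertible
matrix -/
theorem exists_gl {n l : ℕ} (v : Fin n → Fin (n + l) → ℂ) (hv : LinearIndependent ℂ v) :
    ∃ g : GL (Fin (n + l)) ℂ, ∀ k, g.1.mulVec (Pi.single (Fin.castAdd l k) 1) = v k := by
  classical
  let e : Fin n → Fin (n + l) → ℂ := fun k => Pi.single (Fin.castAdd l k) 1
  have he : LinearIndependent ℂ e := by
    have h1 := (Pi.basisFun ℂ (Fin (n + l))).linearIndependent
    have h2 := h1.comp (Fin.castAdd l) (Fin.castAdd_injective n l)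
    convert h2 using 1
    ext k i
    simp [e]
  let b1 := Module.Basis.sumExtend he
  let b2 := Module.Basis.sumExtend hv
  have f1 := Module.Finite.finite_basis b1
  have f2 := Module.Finite.finite_basis b2
  have f3 : Finite (Module.Basis.sumExtendIndex he) := Finite.sum_right (Fin n)
  have f4 : Finite (Module.Basis.sumExtendIndex hv) := Finite.sum_right (Fin n)
  have h1 : Nat.card (Fin n ⊕ Module.Basis.sumExtendIndex he) =
      Nat.card (Fin n ⊕ Module.Basis.sumExtendIndex hv) := Nat.card_congr (b1.indexEquiv b2)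
  rw [Nat.card_sum, Nat.card_sum] at h1
  have h2 : Nat.card (Module.Basis.sumExtendIndex he) = Nat.card (Module.Basis.sumExtendIndex hv) := by
    omega
  obtain ⟨σ⟩ : Nonempty (Module.Basis.sumExtendIndex he ≃ Module.Basis.sumExtendIndex hv) :=
    Finite.card_eq.1 h2
  let φ : (Fin (n + l) → ℂ) ≃ₗ[ℂ] (Fin (n + l) → ℂ) := b1.equiv b2 (Equiv.sumCongr (Equiv.refl _) σ)
  have hφ : ∀ k, φ (e k) = v k := by
    intro k
    have h3 : b1 (Sum.inl k) = e k := sumExtend_inl he k
    have h4 : b2 (Sum.inl k) = v k := sumExtend_inl hv k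
    rw [← h3, ← h4]
    simp [φ]
  have hinv : IsUnit (LinearMap.toMatrix' φ.toLinearMap) := by
    refine IsUnit.of_mul_eq_one (LinearMap.toMatrix' φ.symm.toLinearMap) ?_
    rw [← LinearMap.toMatrix'_comp]
    simp
  obtain ⟨g, hg⟩ := hinv
  refine ⟨g, fun k => ?_⟩
  rw [hg, ← Matrix.toLin'_apply, Matrix.toLin'_toMatrix']
  exact hφ k

/-- for a linearly dependent family the wedge product is zero -/
theorem wedge_dep {m n d : ℕ} (hd : d ≠ 0) (v : Fin n → Fin m → ℂ) (hv : ¬ LinearIndependent ℂ v) :
    wedgePow d v = 0 := by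
  classical
  rw [Fintype.linearIndependent_iff] at hv
  push Not at hv
  obtain ⟨c, hc, k, hk⟩ := hv
  ext a
  simp only [wedgePow, Pi.zero_apply]
  refine prod_eq_zero (mem_univ ⟨0, Nat.pos_of_ne_zero hd⟩) ?_
  apply Matrix.exists_mulVec_eq_zero_iff.1
  refine ⟨c, fun h => hk (congrFun h k), ?_⟩
  ext j
  have h1 := congrFun hc (a (⟨0, Nat.pos_of_ne_zero hd⟩, j))
  simp only [Finset.sum_apply, Pi.smul_apply, smul_eq_mul, Pi.zero_apply] at h1
  simp only [Matrix.mulVec, dotProduct, Matrix.of_apply, Pi.zero_apply]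
  rw [← h1]
  exact sum_congr rfl fun i _ => mul_comm _ _

/-- the block matrix `Y ⊕ 1` -/
def blk {n : ℕ} (l : ℕ) (Y : Matrix (Fin n) (Fin n) ℂ) : Matrix (Fin (n + l)) (Fin (n + l)) ℂ :=
  (Matrix.fromBlocks Y 0 0 1).submatrix finSumFinEquiv.symm finSumFinEquiv.symm

theorem det_blk {n : ℕ} (l : ℕ) (Y : Matrix (Fin n) (Fin n) ℂ) : (blk l Y).det = Y.det := by
  rw [blk, Matrix.det_submatrix_equiv_self, Matrix.det_fromBlocks_zero₂₁, Matrix.det_one, mul_one]

theorem blk_aa {n l : ℕ} (Y : Matrix (Fin n) (Fin n) ℂ) (i j : Fin n) :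
    blk l Y (Fin.castAdd l i) (Fin.castAdd l j) = Y i j := by
  simp [blk]

theorem blk_an {n l : ℕ} (Y : Matrix (Fin n) (Fin n) ℂ) (i : Fin n) (j : Fin l) :
    blk l Y (Fin.castAdd l i) (Fin.natAdd n j) = 0 := by
  simp [blk]

theorem blk_na {n l : ℕ} (Y : Matrix (Fin n) (Fin n) ℂ) (i : Fin l) (j : Fin n) :
    blk l Y (Fin.natAdd n i) (Fin.castAdd l j) = 0 := by
  simp [blk]

/-- restriction -/
theorem res_act {n l : ℕ} {ι : Type} [Fintype ι] [DecidableEq ι] (Y : Matrix (Fin n) (Fin n) ℂ)
    (t : Tensor (n + l) ι) :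
    res (Nat.le_add_right n l) (act (blk l Y) t) = act Y (res (Nat.le_add_right n l) t) := by
  classical
  ext a
  simp only [res, act]
  symm
  refine Fintype.sum_of_injective (fun b : ι → Fin n => fun x => Fin.castLE (Nat.le_add_right n l) (b x))
    ?_ _ _ ?_ ?_
  · intro b b' h
    funext x
    have := congrFun h x
    simpa using this
  · intro b hb
    have h1 : ∃ x, n ≤ (b x).1 := by
      by_contra hcon
      push Not at hcon
      exact hb ⟨fun x => ⟨(b x).1, hcon x⟩, rfl⟩
    obtain ⟨x, hx⟩ := h1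
    have h2 : blk l Y (Fin.castLE (Nat.le_add_right n l) (a x)) (b x) = 0 := by
      have h3 : b x = Fin.natAdd n ⟨(b x).1 - n, by have := (b x).2; omega⟩ := by
        ext
        simp
        omega
      rw [h3]
      exact blk_an Y (a x) _
    rw [prod_eq_zero (mem_univ x) h2, zero_mul]
  · intro b
    congr 1
    exact prod_congr rfl fun x _ => (blk_aa Y (a x) (b x)).symm

/-- the wedge power of the first unit vectors -/
noncomputable def w0 (n l d : ℕ) : Tensor (n + l) (Fin d × Fin n) :=
  wedgePow d (fun k : Fin n => Pi.single (Fin.castAdd l k) 1)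

theorem act_blk_w0 {n l d : ℕ} (Y : Matrix (Fin n) (Fin n) ℂ) :
    act (blk l Y) (w0 n l d) = Y.det ^ d • w0 n l d := by
  rw [w0, act_wedge]
  ext a
  simp only [wedgePow, Pi.smul_apply, smul_eq_mul]
  have h : ∀ i : Fin d, Matrix.det (Matrix.of fun j k =>
      ((blk l Y).mulVec (Pi.single (Fin.castAdd l k) 1)) (a (i, j))) =
      Y.det * Matrix.det (Matrix.of fun j k =>
        (Pi.single (Fin.castAdd l k) 1 : Fin (n + l) → ℂ) (a (i, j))) := by
    intro i
    rw [mul_comm, ← Matrix.det_mul]
    congr 1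
    ext j k
    simp only [Matrix.mul_apply, Matrix.of_apply, Matrix.mulVec_single_one, Matrix.col_apply,
      Pi.single_apply]
    refine Fin.addCases (motive := fun x => blk l Y x (Fin.castAdd l k) =
      ∑ x_1, (if x = Fin.castAdd l x_1 then 1 else 0) * Y x_1 k) ?_ ?_ (a (i, j))
    · intro x
      rw [blk_aa]
      simp
    · intro x
      rw [blk_na]
      symm
      refine sum_eq_zero fun y _ => ?_
      rw [if_neg, zero_mul]
      intro h
      have := congrArg Fin.val h
      simp at this
      have := y.2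
      omega
  simp only [h, prod_mul_distrib, prod_const, card_univ, Fintype.card_fin]

/-- scaling one coordinate -/
theorem act_diag {m : ℕ} {ι : Type} [Fintype ι] [DecidableEq ι] (u : Fin m → ℂ) (t : Tensor m ι)
    (a : ι → Fin m) : act (Matrix.diagonal u) t a = (∏ x, u (a x)) * t a := by
  classical
  simp only [act]
  rw [sum_eq_single a]
  · congr 1
    exact prod_congr rfl fun x _ => by rw [Matrix.diagonal_apply_eq]
  · intro b _ hb
    obtain ⟨x, hx⟩ := Function.ne_iff.1 hb
    have h2 : Matrix.diagonal u (a x) (b x) = 0 := Matrix.diagonal_apply_ne _ (Ne.symm hx)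
    rw [prod_eq_zero (mem_univ x) h2, zero_mul]
  · intro h
    exact absurd (mem_univ a) h

theorem act_diag_w0 {n l d : ℕ} (c : Fin l) :
    act (Matrix.diagonal (fun i => if i = Fin.natAdd n c then (2 : ℂ) else 1)) (w0 n l d) =
      w0 n l d := by
  rw [w0, act_wedge]
  congr 1
  ext k i
  rw [Matrix.mulVec_diagonal]
  by_cases hi : i = Fin.natAdd n c
  · rw [if_pos hi, hi]
    rw [Pi.single_apply, if_neg, mul_zero]
    intro h
    have := congrArg Fin.val h
    simp at this
    have := k.2
    omega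
  · rw [if_neg hi, one_mul]

/-- a tensor with the symmetries of the image of `w0` in `S^n(S^d V)`, for `d` odd, is zero -/
theorem eq_zero_of_semi {n l d : ℕ} (hd : Odd d) (hn : 2 ≤ n) (ψ : Tensor (n + l) (Fin n × Fin d))
    (hψ : ψ ∈ SdSn (n + l) n d)
    (h1 : ∀ Y : Matrix (Fin n) (Fin n) ℂ, Y.det ≠ 0 → act (blk l Y) ψ = Y.det ^ d • ψ)
    (h2 : ∀ c : Fin l,
      act (Matrix.diagonal (fun i => if i = Fin.natAdd n c then (2 : ℂ) else 1)) ψ = ψ) : ψ = 0 := by
  classical
  have hle := Nat.le_add_right n l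
  obtain ⟨χ, hχ⟩ : ∃ χ, χ = res hle ψ := ⟨_, rfl⟩
  have h3 : ∀ Y : Matrix (Fin n) (Fin n) ℂ, Y.det ≠ 0 → act Y χ = Y.det ^ d • χ := by
    intro Y hY
    rw [hχ, ← res_act, h1 Y hY]
    rfl
  have hdiag : χ (fun x => x.1) = 0 := by
    let σ : Equiv.Perm (Fin n) := Equiv.swap ⟨0, by omega⟩ ⟨1, by omega⟩
    have hσ : Equiv.Perm.sign σ = -1 := Equiv.Perm.sign_swap (by simp)
    have h4 := h3 (Matrix.of fun j k => if σ j = k then (1 : ℂ) else 0) (by
      rw [det_perm, hσ]
      simp)
    have h5 := congrFun h4 (fun x => x.1)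
    rw [act_perm, det_perm, hσ, Pi.smul_apply, smul_eq_mul] at h5
    have h6 : χ (fun x => σ x.1) = χ (fun x => x.1) := by
      rw [hχ]
      exact hψ.2 σ (fun x => Fin.castLE hle x.1)
    rw [h6] at h5
    have h7 : (((-1 : ℤˣ) : ℤ) : ℂ) ^ d = -1 := by
      simp [hd.neg_one_pow]
    rw [h7] at h5
    have h8 : (2 : ℂ) * χ (fun x => x.1) = 0 := by linear_combination h5
    rcases mul_eq_zero.1 h8 with h9 | h9
    · norm_num at h9
    · exact h9
  have hχ0 : χ = 0 := by
    apply eq_zero_of_eval
    · intro τ a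
      rw [hχ]
      exact hψ.1 τ (fun x => Fin.castLE hle (a x))
    · intro Y
      -- polynomial identity
      let P : Polynomial ℂ := ∑ b : Fin n × Fin d → Fin n,
        (∏ x : Fin n × Fin d, (Polynomial.C (Y x.1 (b x)) +
          Polynomial.X * Polynomial.C ((1 : Matrix (Fin n) (Fin n) ℂ) x.1 (b x)))) *
          Polynomial.C (χ b)
      have hP : ∀ s : ℂ, P.eval s = act (Y + s • (1 : Matrix (Fin n) (Fin n) ℂ)) χ
          (fun x => x.1) := by
        intro s
        simp only [P, Polynomial.eval_finsetSum, Polynomial.eval_mul, Polynomial.eval_prod,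
          Polynomial.eval_add, Polynomial.eval_C, Polynomial.eval_X, act, Matrix.add_apply,
          Matrix.smul_apply, smul_eq_mul]
      have hQ : ∀ s : ℂ, (-Y).charpoly.eval s = (Y + s • (1 : Matrix (Fin n) (Fin n) ℂ)).det := by
        intro s
        rw [Matrix.eval_charpoly]
        congr 1
        rw [sub_neg_eq_add, add_comm]
        congr 1
        ext i j
        simp [Matrix.scalar_apply, Matrix.diagonal_apply, Matrix.one_apply]
      have hPQ : P * (-Y).charpoly = 0 := by
        apply Polynomial.funext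
        intro s
        rw [Polynomial.eval_mul, hP, hQ, Polynomial.eval_zero]
        by_cases hs : (Y + s • (1 : Matrix (Fin n) (Fin n) ℂ)).det = 0
        · rw [hs, mul_zero]
        · rw [h3 _ hs, Pi.smul_apply, hdiag, smul_zero, zero_mul]
      rcases mul_eq_zero.1 hPQ with h | h
      · have h4 := hP 0
        rw [h, Polynomial.eval_zero, zero_smul, add_zero] at h4
        exact h4.symm
      · exact absurd h (Matrix.charpoly_monic _).ne_zero
  ext b
  by_cases hb : ∃ x, n ≤ (b x).1
  · obtain ⟨x, hx⟩ := hb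
    let c : Fin l := ⟨(b x).1 - n, by have := (b x).2; omega⟩
    have hbx : b x = Fin.natAdd n c := by
      ext
      simp [c]
      omega
    have h4 := congrFun (h2 c) b
    rw [act_diag] at h4
    have h5 : (∏ y, (if b y = Fin.natAdd n c then (2 : ℂ) else 1)) =
        2 ^ (univ.filter fun y => b y = Fin.natAdd n c).card := by
      rw [prod_ite, prod_const, prod_const_one, mul_one]
    rw [h5] at h4
    have h6 : (univ.filter fun y => b y = Fin.natAdd n c).card ≠ 0 := by
      rw [Ne, card_eq_zero]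
      intro h
      have : x ∈ univ.filter fun y => b y = Fin.natAdd n c := by simp [hbx]
      rw [h] at this
      exact absurd this (notMem_empty _)
    have h7 : (2 : ℂ) ^ (univ.filter fun y => b y = Fin.natAdd n c).card - 1 ≠ 0 := by
      rw [sub_ne_zero]
      have h8 : (2 : ℕ) ^ (univ.filter fun y => b y = Fin.natAdd n c).card ≠ 1 := by
        have := Nat.one_lt_two_pow h6
        omega
      exact_mod_cast h8
    have h9 : ((2 : ℂ) ^ (univ.filter fun y => b y = Fin.natAdd n c).card - 1) * ψ b = 0 := by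
      linear_combination h4
    rcases mul_eq_zero.1 h9 with h | h
    · exact absurd h h7
    · exact h
  · push Not at hb
    have h4 := congrFun hχ0 (fun x => ⟨(b x).1, hb x⟩)
    rw [hχ] at h4
    exact h4

theorem gen_mem {m n d : ℕ} (v : Fin n → Fin m → ℂ) : wedgePow d v ∈ rect m d n :=
  Submodule.subset_span ⟨v, rfl⟩

theorem hom_zero_of_gen {m n d : ℕ} {ι : Type} [Fintype ι] [DecidableEq ι]
    (g : Tensor m (Fin d × Fin n) → Tensor m ι) (hg : IsHom g)
    (h : ∀ v : Fin n → Fin m → ℂ, g (wedgePow d v) = 0) : ∀ w ∈ rect m d n, g w = 0 := by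
  intro x hx
  refine Submodule.span_induction (p := fun x _ => g x = 0) ?_ ?_ ?_ ?_ hx
  · rintro x ⟨v, rfl⟩
    exact h v
  · have h1 := hg.2.1 0 0 (Submodule.zero_mem _)
    rw [zero_smul, zero_smul] at h1
    exact h1
  · intro x y hx hy h1 h2
    rw [hg.1 x hx y hy, h1, h2, add_zero]
  · intro c x hx h1
    rw [hg.2.1 c x hx, h1, smul_zero]

/-- there is no nonzero homomorphism from `S_{(d^n)} V` to `S^n(S^d V)` for `d` odd, `n ≥ 2` -/
theorem hom_zero {m n d : ℕ} (hd : Odd d) (hn : 2 ≤ n)
    (g : Tensor m (Fin d × Fin n) → Tensor m (Fin n × Fin d)) (hg : IsHom g)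
    (hmem : ∀ w ∈ rect m d n, g w ∈ SdSn m n d) : ∀ w ∈ rect m d n, g w = 0 := by
  classical
  have hd0 : d ≠ 0 := by
    rintro rfl
    simp at hd
  apply hom_zero_of_gen g hg
  intro v
  by_cases hv : LinearIndependent ℂ v
  · have hnm : n ≤ m := by
      have := hv.fintype_card_le_finrank
      simpa using this
    obtain ⟨l, rfl⟩ := Nat.exists_eq_add_of_le hnm
    have hw0 : w0 n l d ∈ rect (n + l) d n := gen_mem _
    have hzero : g (w0 n l d) = 0 := by
      apply eq_zero_of_semi hd hn _ (hmem _ hw0)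
      · intro Y hY
        have h1 := hg.2.2 (Matrix.GeneralLinearGroup.mkOfDetNeZero (blk l Y) (by rwa [det_blk]))
          (w0 n l d) hw0
        change g (act (blk l Y) (w0 n l d)) = act (blk l Y) (g (w0 n l d)) at h1
        rw [act_blk_w0, hg.2.1 _ _ hw0] at h1
        exact h1.symm
      · intro c
        have hdet : (Matrix.diagonal (fun i => if i = Fin.natAdd n c then (2 : ℂ) else 1)).det ≠ 0 := by
          rw [Matrix.det_diagonal, prod_ne_zero_iff]
          intro i _
          by_cases hi : i = Fin.natAdd n c <;> simp [hi]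
        have h1 := hg.2.2 (Matrix.GeneralLinearGroup.mkOfDetNeZero _ hdet) (w0 n l d) hw0
        change g (act (Matrix.diagonal _) (w0 n l d)) = act (Matrix.diagonal _) (g (w0 n l d)) at h1
        rw [act_diag_w0] at h1
        exact h1.symm
    obtain ⟨gl, hgl⟩ := exists_gl v hv
    have h2 : wedgePow d v = act gl.1 (w0 n l d) := by
      rw [w0, act_wedge]
      congr 1
      ext k i
      rw [hgl]
    rw [h2, hg.2.2 gl _ hw0, hzero]
    ext a
    simp [act]
  · rw [wedge_dep hd0 v hv]
    have h1 := hg.2.1 0 0 (Submodule.zero_mem _)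
    rw [zero_smul, zero_smul] at h1
    exact h1

/-- for `d` odd and `n ≥ 2` the map vanishes on the `S_{(d^n)} V`-isotypic component -/
theorem hhh_odd {m n d : ℕ} (hd : Odd d) (hn : 2 ≤ n) (t : Tensor m (Fin d × Fin n))
    (ht : t ∈ isotypic m d n) : hhh t = 0 := by
  have h : isotypic m d n ≤ LinearMap.ker (hhhL m d n) := by
    refine Submodule.span_le.2 ?_
    rintro _ ⟨f, hf, hf2, w, hw, rfl⟩
    change f w ∈ LinearMap.ker (hhhL m d n)
    rw [LinearMap.mem_ker]
    refine hom_zero hd hn (fun w => hhh (f w)) ⟨?_, ?_, ?_⟩ ?_ w hw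
    · intro w hw w' hw'
      simp only [hf.1 w hw w' hw', hhh_add]
    · intro c w hw
      simp only [hf.2.1 c w hw, hhh_smul]
    · intro g w hw
      simp only [hf.2.2 g w hw, act_hhh]
    · intro w _
      exact hhh_mem _
  exact h ht

end Pool.Agent.T6.H18.HH
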